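import Pool.Agent.Run7.h770.UB.Basic
import Pool.Agent.W367.KT.TameY
set_option autoImplicit false

/-!
The symbol `{x, y}` with `x + 1/x + y + 1/y = k` is unramified where `k` is integral.
-/

namespace Pool.Agent.Run7.h770.UB

open Pool.Agent.W367.KT

open scoped TensorProduct WithZero

variable {F : Type*} [Field F] (v : Valuation F ℤᵐ⁰)

theorem tameElt_one_left (y : Fˣ) : tameElt v 1 y = 1 := by
  have h := tameElt_mul_left v 1 1 y
  rw [mul_one] at h
  exact mul_eq_left.1 h.symm

theorem tameElt_one_right (x : Fˣ) : tameElt v x 1 = 1 := by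
  have h := tameElt_mul_right v x 1 1
  rw [mul_one] at h
  exact mul_eq_left.1 h.symm

theorem tameElt_inv_left (x y : Fˣ) : tameElt v x⁻¹ y = (tameElt v x y)⁻¹ := by
  have h := tameElt_mul_left v x⁻¹ x y
  rw [inv_mul_cancel, tameElt_one_left] at h
  exact eq_inv_of_mul_eq_one_left h.symm

theorem tameElt_inv_right (x y : Fˣ) : tameElt v x y⁻¹ = (tameElt v x y)⁻¹ := by
  have h := tameElt_mul_right v x y⁻¹ y
  rw [inv_mul_cancel, tameElt_one_right] at h
  exact eq_inv_of_mul_eq_one_left h.symm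

theorem tame_aux {x y : Fˣ} {k : F} (hk : v k ≤ 1) (h : Sm k (x : F) y) (hx : 1 ≤ v (x : F))
    (hy : 1 ≤ v (y : F)) : tameElt v x y ^ 2 ∈ U1 v := by
  have hs : v ((x : F) + y) ≤ 1 := by
    have e : (x : F) + y = k - ((x : F)⁻¹ + (y : F)⁻¹) := by
      unfold Sm at h
      rw [← h]
      ring
    rw [e]
    have hxi : v ((x : F)⁻¹) ≤ 1 := by
      rw [map_inv₀]
      exact inv_le_one_of_one_le₀ hx
    have hyi : v ((y : F)⁻¹) ≤ 1 := by
      rw [map_inv₀]
      exact inv_le_one_of_one_le₀ hy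
    exact (v.map_sub _ _).trans (max_le hk ((v.map_add _ _).trans (max_le hxi hyi)))
  have key : 1 < v (y : F) → v (x : F) = v (y : F) → tameElt v x y ^ 2 ∈ U1 v := by
    intro hy1 h2
    have ho : ord v x = ord v y := by
      rw [ord_eq_iff, h2, val_eq]
    have h1 : v ((x : F) / y + 1) < 1 := by
      have h5 : (x : F) / y + 1 = (x + y) / y := by
        have := y.ne_zero
        field_simp
      rw [h5, map_div₀]
      have hvy : 0 < v (y : F) := one_pos.trans hy1
      rw [div_lt_one₀ hvy]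
      exact hs.trans_lt hy1
    unfold tameElt
    rw [ho]
    have h3 : ((-1 : Fˣ) ^ (ord v y * ord v y) * x ^ (ord v y) * y ^ (-(ord v y))) ^ 2 =
        ((x / y) ^ 2) ^ (ord v y) := by
      rw [mul_assoc, zpow_neg, ← inv_zpow, ← mul_zpow, ← div_eq_mul_inv, mul_pow]
      have h4 : ((-1 : Fˣ) ^ (ord v y * ord v y)) ^ 2 = 1 := by
        rw [← zpow_natCast, ← zpow_mul, mul_comm, zpow_mul]
        simp
      rw [h4, one_mul, ← zpow_natCast, ← zpow_mul, ← zpow_natCast (x / y), ← zpow_mul]
      congr 1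
      ring
    rw [h3]
    apply Subgroup.zpow_mem
    rw [mem_U1]
    have e : (((x / y) ^ 2 : Fˣ) : F) - 1 = ((x : F) / y + 1) * ((x : F) / y - 1) := by
      push_cast
      ring
    have hxy : v ((x : F) / y) = 1 := by
      rw [map_div₀, h2, div_self ((Valuation.ne_zero_iff v).2 y.ne_zero)]
    rw [e, map_mul]
    have h6 : v ((x : F) / y - 1) ≤ 1 := Valuation.map_sub_le v hxy.le (map_one v).le
    calc v ((x : F) / y + 1) * v ((x : F) / y - 1) ≤ v ((x : F) / y + 1) * 1 :=
          mul_le_mul_right h6 _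
      _ < 1 := by simpa using h1
  rcases lt_or_eq_of_le hx with hx1 | hx1
  · have h2 : v (y : F) = v (x : F) := by
      have e : (y : F) = (x + y) - x := by ring
      rw [e, Valuation.map_sub_eq_of_lt_right v (hs.trans_lt hx1)]
    exact key (by rw [h2]; exact hx1) h2.symm
  · rcases lt_or_eq_of_le hy with hy1 | hy1
    · exfalso
      have h2 : v (x : F) = v (y : F) := by
        have e : (x : F) = (x + y) - y := by ring
        rw [e, Valuation.map_sub_eq_of_lt_right v (hs.trans_lt hy1)]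
      rw [← h2, ← hx1] at hy1
      exact lt_irrefl _ hy1
    · exact YData.tame_of_pow ((ord_eq_zero_iff v y).2 hy1.symm)
        (Or.inl ((ord_eq_zero_iff v x).2 hx1.symm))

theorem tame_sm {x y : Fˣ} {k : F} (hk : v k ≤ 1) (h : Sm k (x : F) y) :
    tameElt v x y ^ 2 ∈ U1 v := by
  have hinv : ∀ z : Fˣ, v (z : F) < 1 → 1 ≤ v ((z⁻¹ : Fˣ) : F) := by
    intro z hz
    have h0 : 0 < v (z : F) := zero_lt_iff.2 ((Valuation.ne_zero_iff v).2 z.ne_zero)
    rw [Units.val_inv_eq_inv_val, map_inv₀]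
    exact (one_le_inv₀ h0).2 hz.le
  unfold Sm at h
  rcases le_or_gt 1 (v (x : F)) with hx | hx <;> rcases le_or_gt 1 (v (y : F)) with hy | hy
  · exact tame_aux v hk h hx hy
  · have h1 := tame_aux v (x := x) (y := y⁻¹) hk (by
      unfold Sm
      rw [Units.val_inv_eq_inv_val, inv_inv]; linear_combination h) hx (hinv y hy)
    rw [tameElt_inv_right, inv_pow] at h1
    exact inv_mem_iff.1 h1
  · have h1 := tame_aux v (x := x⁻¹) (y := y) hk (by
      unfold Sm
      rw [Units.val_inv_eq_inv_val, inv_inv]; linear_combination h) (hinv x hx) hy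
    rw [tameElt_inv_left, inv_pow] at h1
    exact inv_mem_iff.1 h1
  · have h1 := tame_aux v (x := x⁻¹) (y := y⁻¹) hk (by
      unfold Sm
      rw [Units.val_inv_eq_inv_val, Units.val_inv_eq_inv_val, inv_inv, inv_inv]
      linear_combination h) (hinv x hx) (hinv y hy)
    rw [tameElt_inv_left, tameElt_inv_right, inv_inv] at h1
    exact h1

/-- Symbols with an integral parameter are in the integral part. -/
theorem mem_H2MZ {x y : Fˣ} {k : F} (hk : ∀ v : Valuation F ℤᵐ⁰, v k ≤ 1)
    (h : Sm k (x : F) y) (q : ℚ) : q ⊗ₜ[ℤ] symb x y ∈ H2MZ F := by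
  apply tmul_symb_mem _ _ 2 (by norm_num)
  intro v
  rw [← mem_U1]
  exact tame_sm v (hk v) h

theorem val_le_one_of_int (v : Valuation F ℤᵐ⁰) {x : F} (hx : IsIntegral ℤ x) : v x ≤ 1 := by
  have h1 : IsIntegral v.valuationSubring x := hx.tower_top
  exact (Valuation.valuationSubring.integers v).mem_of_integral h1

end Pool.Agent.Run7.h770.UB
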