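import Pool.Agent.Run7.h770.UB.Path
import Pool.Agent.Run7.h770.IJ.Crv
import Pool.Agent.T6.H7.SX.Wei
set_option autoImplicit false

/-!
The functions `x` and `y` on a Weierstrass curve isomorphic to `Y² + k X Y = X³ - 2 X² + X`, and
closed paths with prescribed values of `x` and `y`.
-/

namespace Pool.Agent.Run7.h770.UB

open Pool.Agent.W367.KT Pool.Agent.T6.H7.SX

open Pool.Agent.Run7.h770.IJ (crv)

open WeierstrassCurve

section coef

variable {L : Type*} [Field L] {W : WeierstrassCurve L} {C : VariableChange L} {k : L}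

theorem coef (hC : C • W = crv k) :
    W.a₁ = C.u * k - 2 * C.s ∧ W.a₂ = -2 * (C.u : L) ^ 2 + C.s * W.a₁ - 3 * C.r + C.s ^ 2 ∧
    W.a₃ = -C.r * W.a₁ - 2 * C.t ∧
    W.a₄ = (C.u : L) ^ 4 + C.s * W.a₃ - 2 * C.r * W.a₂ + (C.t + C.r * C.s) * W.a₁ -
      3 * C.r ^ 2 + 2 * C.s * C.t ∧
    W.a₆ = -C.r * W.a₄ - C.r ^ 2 * W.a₂ - C.r ^ 3 + C.t * W.a₃ + C.t ^ 2 + C.r * C.t * W.a₁ := by
  have h1 := congrArg WeierstrassCurve.a₁ hC
  have h2 := congrArg WeierstrassCurve.a₂ hC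
  have h3 := congrArg WeierstrassCurve.a₃ hC
  have h4 := congrArg WeierstrassCurve.a₄ hC
  have h6 := congrArg WeierstrassCurve.a₆ hC
  rw [variableChange_a₁] at h1
  rw [variableChange_a₂] at h2
  rw [variableChange_a₃] at h3
  rw [variableChange_a₄] at h4
  rw [variableChange_a₆] at h6
  unfold crv at h1 h2 h3 h4 h6
  simp only at h1 h2 h3 h4 h6
  have hu : ((C.u⁻¹ : Lˣ) : L) * C.u = 1 := Units.inv_mul _
  generalize ((C.u⁻¹ : Lˣ) : L) = w at *
  generalize (C.u : L) = u at *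
  have p2 : w ^ 2 * u ^ 2 = 1 := by rw [← mul_pow, hu, one_pow]
  have p3 : w ^ 3 * u ^ 3 = 1 := by rw [← mul_pow, hu, one_pow]
  have p4 : w ^ 4 * u ^ 4 = 1 := by rw [← mul_pow, hu, one_pow]
  have p6 : w ^ 6 * u ^ 6 = 1 := by rw [← mul_pow, hu, one_pow]
  refine ⟨?_, ?_, ?_, ?_, ?_⟩
  · linear_combination u * h1 - (W.a₁ + 2 * C.s) * hu
  · linear_combination u ^ 2 * h2 - (W.a₂ - C.s * W.a₁ + 3 * C.r - C.s ^ 2) * p2
  · linear_combination u ^ 3 * h3 - (W.a₃ + C.r * W.a₁ + 2 * C.t) * p3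
  · linear_combination u ^ 4 * h4 - (W.a₄ - C.s * W.a₃ + 2 * C.r * W.a₂ - (C.t + C.r * C.s) * W.a₁ +
      3 * C.r ^ 2 - 2 * C.s * C.t) * p4
  · linear_combination u ^ 6 * h6 - (W.a₆ + C.r * W.a₄ + C.r ^ 2 * W.a₂ + C.r ^ 3 - C.t * W.a₃ -
      C.t ^ 2 - C.r * C.t * W.a₁) * p6

variable {F : Type*} [Field F] (φ : L →+* F)

theorem coef_eq (hC : C • W = crv k) (X Y : F) :
    (φ C.u ^ 3 * Y + φ C.u ^ 2 * φ C.s * X + φ C.t) ^ 2 +
      φ W.a₁ * (φ C.u ^ 2 * X + φ C.r) * (φ C.u ^ 3 * Y + φ C.u ^ 2 * φ C.s * X + φ C.t) +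
      φ W.a₃ * (φ C.u ^ 3 * Y + φ C.u ^ 2 * φ C.s * X + φ C.t) -
      ((φ C.u ^ 2 * X + φ C.r) ^ 3 + φ W.a₂ * (φ C.u ^ 2 * X + φ C.r) ^ 2 +
        φ W.a₄ * (φ C.u ^ 2 * X + φ C.r) + φ W.a₆) =
    φ C.u ^ 6 * (Y ^ 2 + φ k * X * Y - (X ^ 3 - 2 * X ^ 2 + X)) := by
  obtain ⟨h1, h2, h3, h4, h6⟩ := coef hC
  have g1 := congrArg φ h1
  have g2 := congrArg φ h2
  have g3 := congrArg φ h3
  have g4 := congrArg φ h4
  have g6 := congrArg φ h6
  simp only [map_add, map_sub, map_mul, map_pow, map_neg, map_ofNat] at g1 g2 g3 g4 g6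
  rw [g6, g4, g3, g2, g1]
  ring

end coef

section fun0

variable {L : Type*} [Field L] (W : WeierstrassCurve L) (C : VariableChange L) (k : L)

/-- the first coordinate on the isomorphic curve `Y² + k X Y = X³ - 2 X² + X` -/
noncomputable def X1 : W.toAffine.FunctionField := (Xf W - cst W C.r) / cst W C.u ^ 2

/-- the second coordinate on the isomorphic curve -/
noncomputable def Y1 : W.toAffine.FunctionField :=
  (Yf W - cst W C.s * (Xf W - cst W C.r) - cst W C.t) / cst W C.u ^ 3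

/-- the function `x` -/
noncomputable def x0 : W.toAffine.FunctionField := Y1 W C / (1 - X1 W C)

/-- the function `y` -/
noncomputable def y0 : W.toAffine.FunctionField := -(Y1 W C + cst W k * X1 W C) / (1 - X1 W C)

end fun0

section loop

variable {L : Type*} [Field L] [NumberField L] {W : WeierstrassCurve L} {C : VariableChange L}
  {k : L} (σ : L →+* ℂ)

theorem algebraic_sigma' (c : L) : IsAlgebraic ℚ (σ c) :=
  (Algebra.IsAlgebraic.isAlgebraic (R := ℚ) c).algHom σ.toRatAlgHom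

theorem sm_mul {k x y : ℂ} (hx : x ≠ 0) (hy : y ≠ 0) (h : Sm k x y) :
    (x + y) * (x * y + 1) = k * (x * y) := by
  unfold Sm at h
  rw [← h]
  field_simp
  ring

theorem sm_one_add {k x y : ℂ} (hk : k ≠ 0) (hx : x ≠ 0) (hy : y ≠ 0) (h : Sm k x y) :
    x * y + 1 ≠ 0 := by
  intro h0
  have h1 := sm_mul hx hy h
  rw [h0, mul_zero] at h1
  exact mul_ne_zero hk (mul_ne_zero hx hy) h1.symm

theorem tr_xy {k x y : ℂ} (hka : IsAlgebraic ℚ k) (hk : k ≠ 0) (hx : Transcendental ℚ x)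
    (hy : y ≠ 0) (h : Sm k x y) : Transcendental ℚ (x * y) := by
  have hx0 : x ≠ 0 := by
    rintro rfl
    exact hx isAlgebraic_zero
  intro hp
  apply hx
  have h1 := sm_mul hx0 hy h
  have h2 := sm_one_add hk hx0 hy h
  refine alg_of_quad (a := 1) (b := -(k * (x * y) * (x * y + 1)⁻¹)) (c := x * y) isAlgebraic_one
    ((hka.mul hp).mul ((hp.add isAlgebraic_one).inv)).neg hp one_ne_zero ?_
  have h3 : k * (x * y) * (x * y + 1)⁻¹ = x + y := by
    rw [← h1, mul_assoc, mul_inv_cancel₀ h2, mul_one]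
  rw [h3]
  ring

/-- closed paths with prescribed values of `x` and `y` -/
theorem exists_loop_sm (hC : C • W = crv k) (hk : k ≠ 0) {x y : ℝ → ℂ} (hx : PP x) (hy : PP y)
    (h : ∀ t, Sm (σ k) (x t) (y t)) (ht : ∀ t, Transcendental ℚ (x t)) :
    ∃ γ : Loop W.toAffine.FunctionField, (∀ t c, γ.e t (cst W c) = σ c) ∧
      (∀ t, γ.e t (x0 W C) = x t) ∧ ∀ t, γ.e t (y0 W C k) = y t := by
  have hk' : σ k ≠ 0 := (map_ne_zero σ).2 hk
  have hu : σ (C.u : L) ≠ 0 := (map_ne_zero σ).2 C.u.ne_zero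
  have hka := algebraic_sigma' σ k
  set p : ℝ → ℂ := fun t => -(x t * y t) with hp
  set q : ℝ → ℂ := fun t => x t * (x t * y t + 1) with hq
  have hpq : ∀ t, q t ^ 2 + σ k * p t * q t - (p t ^ 3 - 2 * p t ^ 2 + p t) = 0 := by
    intro t
    have h1 := sm_mul (hx.ne t) (hy.ne t) (h t)
    simp only [hp, hq]
    linear_combination (x t * (x t * y t + 1)) * h1
  have hW : ∀ t, WE W σ (σ C.u ^ 2 * p t + σ C.r)
      (σ C.u ^ 3 * q t + σ C.u ^ 2 * σ C.s * p t + σ C.t) := by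
    intro t
    have h1 := coef_eq σ hC (p t) (q t)
    rw [hpq t, mul_zero] at h1
    unfold WE
    linear_combination h1
  have hX : ∀ t, Transcendental ℚ (σ C.u ^ 2 * p t + σ C.r) := by
    intro t halg
    have h1 := tr_xy hka hk' (ht t) (hy.ne t) (h t)
    apply h1
    have h2 : x t * y t = -((σ C.u ^ 2 * p t + σ C.r - σ C.r) * (σ C.u ^ 2)⁻¹) := by
      simp only [hp]
      field_simp
      ring
    rw [h2]
    exact ((halg.sub (algebraic_sigma' σ _)).mul ((algebraic_sigma' σ _).pow 2).inv).neg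
  have cp : CC p := by
    refine ⟨((hx.smooth.mul hy.smooth).neg).of_le (by norm_num), ?_⟩
    simp only [hp]
    have h1 := hx.per 0
    have h2 := hy.per 0
    rw [zero_add] at h1 h2
    rw [h1, h2]
  have cq : CC q := by
    refine ⟨(hx.smooth.mul ((hx.smooth.mul hy.smooth).add contDiff_const)).of_le (by norm_num), ?_⟩
    simp only [hq]
    have h1 := hx.per 0
    have h2 := hy.per 0
    rw [zero_add] at h1 h2
    rw [h1, h2]
  have cX : CC fun t => σ C.u ^ 2 * p t + σ C.r := ((CC.const _).mul cp).add (CC.const _)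
  have cY : CC fun t => σ C.u ^ 3 * q t + σ C.u ^ 2 * σ C.s * p t + σ C.t :=
    (((CC.const _).mul cq).add ((CC.const _).mul cp)).add (CC.const _)
  have e1 : ∀ t, evW σ (hW t) (hX t) (X1 W C) = p t := by
    intro t
    unfold X1
    rw [map_div₀, map_sub, map_pow, evW_cst, evW_cst, evW_Xf]
    field_simp
    ring
  have e2 : ∀ t, evW σ (hW t) (hX t) (Y1 W C) = q t := by
    intro t
    unfold Y1
    rw [map_div₀, map_sub, map_sub, map_mul, map_sub, map_pow, evW_cst, evW_cst, evW_cst, evW_cst,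
      evW_Xf, evW_Yf]
    field_simp
    ring
  refine ⟨wLoop σ _ _ hW hX cX cY, ?_, ?_, ?_⟩
  · intro t c
    exact evW_cst σ (hW t) (hX t) c
  · intro t
    show evW σ (hW t) (hX t) (x0 W C) = x t
    unfold x0
    rw [map_div₀, map_sub, map_one, e1, e2]
    have h1 := sm_one_add hk' (hx.ne t) (hy.ne t) (h t)
    simp only [hp, hq]
    rw [sub_neg_eq_add, add_comm (1 : ℂ), mul_div_assoc, div_self h1, mul_one]
  · intro t
    show evW σ (hW t) (hX t) (y0 W C k) = y t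
    unfold y0
    rw [map_div₀, map_neg, map_add, map_mul, map_sub, map_one, e1, e2, evW_cst]
    have h1 := sm_one_add hk' (hx.ne t) (hy.ne t) (h t)
    have h2 := sm_mul (hx.ne t) (hy.ne t) (h t)
    simp only [hp, hq]
    rw [sub_neg_eq_add, add_comm (1 : ℂ), div_eq_iff h1]
    linear_combination -h2

end loop

end Pool.Agent.Run7.h770.UB
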