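import Pool.Agent.Run7.h770.UB.Est
import Pool.Agent.Run7.h770.UB.Wei2
import Pool.Agent.Run7.h770.UB.Tame
set_option autoImplicit false

/-!
Pairs of closed paths that separate the new class from the classes defined over smaller fields.
-/

namespace Pool.Agent.Run7.h770.UB

open Pool.Agent.W367.KT Pool.Agent.T6.H7.SX

open Pool.Agent.Run7.h770.IJ (crv)

open WeierstrassCurve

/-- If the determinant of a difference is not zero, then one can choose rows. -/
theorem exists_rows {r : ℕ} (A B : Matrix (Fin r) (Fin r) ℝ) (h : (A - B).det ≠ 0) :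
    ∃ s : Finset (Fin r), (Matrix.of fun i j => if i ∈ s then A i j else B i j).det ≠ 0 := by
  classical
  by_contra hcon
  push Not at hcon
  apply h
  have h1 := (Matrix.detRowAlternating (R := ℝ) (n := Fin r)).toMultilinearMap.map_add_univ
    (fun i => A i) (fun i => (-B) i)
  have h2 : (A - B).det = (Matrix.detRowAlternating (R := ℝ) (n := Fin r)).toMultilinearMap
      ((fun i => A i) + fun i => (-B) i) := by
    rw [sub_eq_add_neg]
    rfl
  rw [h2, h1]
  refine Finset.sum_eq_zero fun s _ => ?_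
  have h3 := Matrix.det_mul_column (fun i => if i ∈ s then (1 : ℝ) else -1)
    (Matrix.of fun i j => if i ∈ s then A i j else B i j)
  rw [hcon s, mul_zero] at h3
  rw [← h3]
  show Matrix.det _ = Matrix.det _
  congr 1
  funext i j
  by_cases hi : i ∈ s
  · simp [Finset.piecewise, hi]
  · simp [Finset.piecewise, hi]

theorem PP.gg {X : ℝ → ℂ} (hX : PP X) {n : ℂ} (h1 : ∀ t, X t ≠ n) (h2 : ∀ t, n * X t ≠ 1) :
    PP fun t => gg n (X t) := by
  refine ⟨?_, fun t => by simp only [hX.per], fun t => gg_ne (hX.ne t) (h1 t) (h2 t)⟩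
  unfold UB.gg
  simp only [div_eq_mul_inv]
  exact (hX.smooth.mul ((contDiff_const.mul hX.smooth).sub contDiff_const)).mul
    ((hX.smooth.sub contDiff_const).inv fun t => sub_ne_zero.2 (h1 t))

theorem alg_it {n : ℕ → ℂ} {x : ℂ} {i : ℕ} (hn : ∀ j, j < i → IsAlgebraic ℚ (n j))
    (hx : IsAlgebraic ℚ x) : IsAlgebraic ℚ (it n x i) := by
  induction i with
  | zero => exact hx
  | succ i ih =>
    have h1 := ih fun j hj => hn j (by omega)
    have h2 := hn i (by omega)
    show IsAlgebraic ℚ (UB.gg (n i) (it n x i))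
    unfold UB.gg
    rw [div_eq_mul_inv]
    exact (h1.mul ((h2.mul h1).sub isAlgebraic_one)).mul (h1.sub h2).inv

section pair

variable {L : Type*} [Field L] [NumberField L] {W : WeierstrassCurve L} {C : VariableChange L}
  {kL nL : ℕ → L} {N : ℕ}

/-- the functions `x_i` on the curve -/
noncomputable def xi (W : WeierstrassCurve L) (C : VariableChange L) (nL : ℕ → L) (i : ℕ) :
    W.toAffine.FunctionField := it (fun j => cst W (nL j)) (x0 W C) i

/-- the functions `y_i` on the curve -/
noncomputable def yi (W : WeierstrassCurve L) (C : VariableChange L) (k : L) (nL : ℕ → L) (i : ℕ) :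
    W.toAffine.FunctionField := it (fun j => cst W (nL j)) (y0 W C k) i

/-- A pair of closed paths over two embeddings that agree on the parameters with index `< J`, and
send the `J`-th root to a large number and to its inverse. -/
theorem exists_pair (hC : C • W = crv (kL 0)) (hk : kL 0 ≠ 0) (hc : Chain kL nL N) {J : ℕ}
    (hJ : J < N) {σ σ' : L →+* ℂ} (hk0 : σ' (kL 0) = σ (kL 0))
    (hn : ∀ i, i < J → σ' (nL i) = σ (nL i)) (hnJ : σ' (nL J) = (σ (nL J))⁻¹)
    (hbig : 100 ≤ ‖σ (nL J)‖) :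
    ∃ γ γ' : Loop W.toAffine.FunctionField,
      (∀ i, i ≤ N → xi W C nL i ≠ 0 ∧ yi W C (kL 0) nL i ≠ 0 ∧
        Sm (cst W (kL i)) (xi W C nL i) (yi W C (kL 0) nL i)) ∧
      (∀ i, i ≤ J → prK (fun t => γ.e t (xi W C nL i)) (fun t => γ.e t (yi W C (kL 0) nL i)) =
        prK (fun t => γ'.e t (xi W C nL i)) (fun t => γ'.e t (yi W C (kL 0) nL i))) ∧
      prK (fun t => γ.e t (xi W C nL (J + 1))) (fun t => γ.e t (yi W C (kL 0) nL (J + 1))) ≠
        prK (fun t => γ'.e t (xi W C nL (J + 1))) (fun t => γ'.e t (yi W C (kL 0) nL (J + 1))) := by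
  obtain ⟨R, hR1, hR2, hRt⟩ := exists_transcendental_between (r := 1) (s := 2) (by norm_num)
  have hR : 0 < R := by linarith
  set n : ℂ := σ (nL J) with hnn
  have ppc := pp_circ hbig hR1 hR2
  have ppy := pp_yt hbig hR1 hR2
  have hcσ := hc.map σ
  have hsm : ∀ t, Sm ((fun i => σ (kL i)) J) (circ R t) (yt n R t) := by
    intro t
    have h1 := hcσ.k1 J hJ
    show Sm (σ (kL J)) (circ R t) (yt n R t)
    rw [h1]
    exact sm_yt hbig hR1 hR2 t
  obtain ⟨X, Y, hX, hY, hS, hXJ, hYJ⟩ := lift_all J (hcσ.mono hJ.le) ppc ppy hsm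
  have halg : ∀ c : L, IsAlgebraic ℚ (σ c) := fun c => algebraic_sigma' σ c
  have hXt : ∀ t, Transcendental ℚ (X t) := by
    intro t h
    have h1 := alg_it (n := fun i => σ (nL i)) (i := J) (fun j _ => halg _) h
    rw [hXJ] at h1
    exact transcendental_circ hR hRt _ h1
  obtain ⟨γ, g1, g2, g3⟩ := exists_loop_sm σ hC hk hX hY hS hXt
  have hS' : ∀ t, Sm (σ' (kL 0)) (X t) (Y t) := by
    intro t
    rw [hk0]
    exact hS t
  obtain ⟨γ', g1', g2', g3'⟩ := exists_loop_sm σ' hC hk hX hY hS' hXt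
  -- values of the functions
  have vx : ∀ i t, γ.e t (xi W C nL i) = it (fun j => σ (nL j)) (X t) i := by
    intro i t
    unfold xi
    rw [map_it, g2]
    congr 1
    funext j
    exact g1 t _
  have vy : ∀ i t, γ.e t (yi W C (kL 0) nL i) = it (fun j => σ (nL j)) (Y t) i := by
    intro i t
    unfold yi
    rw [map_it, g3]
    congr 1
    funext j
    exact g1 t _
  have vx' : ∀ i t, γ'.e t (xi W C nL i) = it (fun j => σ' (nL j)) (X t) i := by
    intro i t
    unfold xi
    rw [map_it, g2']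
    congr 1
    funext j
    exact g1' t _
  have vy' : ∀ i t, γ'.e t (yi W C (kL 0) nL i) = it (fun j => σ' (nL j)) (Y t) i := by
    intro i t
    unfold yi
    rw [map_it, g3']
    congr 1
    funext j
    exact g1' t _
  have hco : ∀ (z : ℂ) i, i ≤ J → it (fun j => σ' (nL j)) z i = it (fun j => σ (nL j)) z i :=
    fun z i hi => it_congr fun j hj => hn j (by omega)
  have hne : ∀ {z a : ℂ}, Transcendental ℚ z → IsAlgebraic ℚ a → z ≠ a := by
    intro z a hz ha h0
    apply hz
    rw [h0]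
    exact ha
  refine ⟨γ, γ', fun i hi => ?_, fun i hi => ?_, ?_⟩
  · -- the functions are not zero and satisfy the equations
    obtain ⟨a1, a2, a3⟩ := all_sm hcσ (fun j _ => halg _) (halg _) (hXt 0) (hS 0) i hi
    have b1 : γ.e 0 (xi W C nL i) ≠ 0 := by
      rw [vx]
      exact hne a1 isAlgebraic_zero
    have b2 : γ.e 0 (yi W C (kL 0) nL i) ≠ 0 := by
      rw [vy]
      exact hne a2 isAlgebraic_zero
    refine ⟨fun h => b1 (by rw [h, map_zero]), fun h => b2 (by rw [h, map_zero]), ?_⟩
    unfold Sm at a3 ⊢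
    apply (γ.e 0).injective
    rw [map_add, map_add, map_add, map_inv₀, map_inv₀, vx, vy, g1]
    exact a3
  · simp only [vx, vy, vx', vy', hco _ i hi]
  · have e1 : ∀ t, it (fun j => σ (nL j)) (X t) (J + 1) =
        (fun s => UB.gg n (circ R s)) (((2 ^ J : ℕ) : ℝ) * t) := by
      intro t
      show UB.gg (σ (nL J)) (it (fun j => σ (nL j)) (X t) J) = _
      rw [hXJ]
      push_cast
      rfl
    have e2 : ∀ t, it (fun j => σ (nL j)) (Y t) (J + 1) =
        (fun s => UB.gg n (yt n R s)) (((2 ^ J : ℕ) : ℝ) * t) := by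
      intro t
      show UB.gg (σ (nL J)) (it (fun j => σ (nL j)) (Y t) J) = _
      rw [hYJ]
      push_cast
      rfl
    have e1' : ∀ t, it (fun j => σ' (nL j)) (X t) (J + 1) =
        (fun s => UB.gg n⁻¹ (circ R s)) (((2 ^ J : ℕ) : ℝ) * t) := by
      intro t
      show UB.gg (σ' (nL J)) (it (fun j => σ' (nL j)) (X t) J) = _
      rw [hco _ J le_rfl, hXJ, hnJ]
      push_cast
      rfl
    have e2' : ∀ t, it (fun j => σ' (nL j)) (Y t) (J + 1) =
        (fun s => UB.gg n⁻¹ (yt n R s)) (((2 ^ J : ℕ) : ℝ) * t) := by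
      intro t
      show UB.gg (σ' (nL J)) (it (fun j => σ' (nL j)) (Y t) J) = _
      rw [hco _ J le_rfl, hYJ, hnJ]
      push_cast
      rfl
    have hn0 : n ≠ 0 := n_ne hbig hR1 hR2
    have hna : IsAlgebraic ℚ n := halg _
    have hct : ∀ t, Transcendental ℚ (circ R t) := transcendental_circ hR hRt
    have hka : IsAlgebraic ℚ (2 * (n + n⁻¹)) := by
      have h1 := hcσ.k1 J hJ
      rw [← h1]
      exact halg _
    have hyt : ∀ t, Transcendental ℚ (yt n R t) := fun t =>
      tr_y hka (hct t) (sm_yt hbig hR1 hR2 t)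
    have hmul : ∀ {z : ℂ}, Transcendental ℚ z → n * z ≠ 1 := by
      intro z hz h0
      refine hne hz hna.inv ?_
      rw [eq_inv_of_mul_eq_one_right h0]
    have hmul' : ∀ {z : ℂ}, Transcendental ℚ z → n⁻¹ * z ≠ 1 := by
      intro z hz h0
      refine hne hz hna ?_
      rw [eq_inv_of_mul_eq_one_right h0, inv_inv]
    have p1 := ppc.gg (fun t => hne (hct t) hna) (fun t => hmul (hct t))
    have p2 := ppy.gg (fun t => hne (hyt t) hna) (fun t => hmul (hyt t))
    have p3 := ppc.gg (fun t => hne (hct t) hna.inv) (fun t => hmul' (hct t))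
    have p4 := ppy.gg (fun t => hne (hyt t) hna.inv) (fun t => hmul' (hyt t))
    simp only [vx, vy, vx', vy', e1, e2, e1', e2']
    rw [prK_mul p1 p2, prK_mul p3 p4]
    intro h
    have h2 : ((2 ^ J : ℕ) : ℝ) ≠ 0 := by positivity
    exact top_ne hbig hR1 hR2 (mul_left_cancel₀ h2 h)

end pair

end Pool.Agent.Run7.h770.UB
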