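import Mathlib
set_option autoImplicit false

/-!
A tower `z (i+1) + 1 / z (i+1) = 2 (z i) ^ 2` that grows at one embedding cannot stay in a number
field.
-/

namespace Pool.Agent.Run7.h770.UB

variable {M : Type*} [Field M] [NumberField M]

/-- The product of the absolute values of the conjugates of a nonzero algebraic integer. -/
theorem one_le_prod {y : M} (hy : y ≠ 0) (hi : IsIntegral ℤ y) :
    1 ≤ ∏ σ : M →ₐ[ℚ] ℂ, ‖σ y‖ := by
  have h1 : IsIntegral ℤ (Algebra.norm ℚ y) := Algebra.isIntegral_norm ℚ hi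
  obtain ⟨m, hm⟩ := IsIntegrallyClosed.isIntegral_iff.1 h1
  have hne : Algebra.norm ℚ y ≠ 0 := Algebra.norm_ne_zero_iff.2 hy
  have hm0 : m ≠ 0 := by
    rintro rfl
    apply hne
    rw [← hm, map_zero]
  have h2 := Algebra.norm_eq_prod_embeddings ℚ ℂ y
  have h3 : ∏ σ : M →ₐ[ℚ] ℂ, ‖σ y‖ = |(m : ℝ)| := by
    rw [← norm_prod, ← h2, ← hm]
    simp
  rw [h3]
  exact_mod_cast Int.one_le_abs hm0

/-- One of the conjugates is small. -/
theorem exists_small (τ : M →ₐ[ℚ] ℂ) {z : M} (hz : z ≠ 0) (hi : IsIntegral ℤ (2 * z⁻¹)) {a : ℝ}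
    (ha : 0 ≤ a) (hτ : a ≤ ‖τ z‖) :
    ∃ σ : M →ₐ[ℚ] ℂ, ‖σ z‖ ^ (Module.finrank ℚ M - 1) * a ≤ 2 ^ Module.finrank ℚ M := by
  classical
  have hne : (2 * z⁻¹ : M) ≠ 0 := mul_ne_zero two_ne_zero (inv_ne_zero hz)
  have h1 := one_le_prod hne hi
  have hcard : Fintype.card (M →ₐ[ℚ] ℂ) = Module.finrank ℚ M := AlgHom.card ℚ M ℂ
  have h2 : (∏ σ : M →ₐ[ℚ] ℂ, ‖σ (2 * z⁻¹)‖) * ∏ σ : M →ₐ[ℚ] ℂ, ‖σ z‖ =
      2 ^ Module.finrank ℚ M := by
    rw [← Finset.prod_mul_distrib, ← hcard, ← Finset.card_univ, ← Finset.prod_const]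
    refine Finset.prod_congr rfl fun σ _ => ?_
    rw [← norm_mul, ← map_mul, mul_assoc, inv_mul_cancel₀ hz, mul_one, map_ofNat,
      Complex.norm_ofNat]
  have h3 : ∏ σ : M →ₐ[ℚ] ℂ, ‖σ z‖ ≤ 2 ^ Module.finrank ℚ M := by
    rw [← h2]
    exact le_mul_of_one_le_left (Finset.prod_nonneg fun σ _ => norm_nonneg _) h1
  have _ : Nonempty (M →ₐ[ℚ] ℂ) := ⟨τ⟩
  obtain ⟨σ, hσ⟩ := Finite.exists_min (fun σ : M →ₐ[ℚ] ℂ => ‖σ z‖)
  refine ⟨σ, ?_⟩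
  have h4 : ∏ σ : M →ₐ[ℚ] ℂ, ‖σ z‖ = ‖τ z‖ * ∏ σ ∈ Finset.univ.erase τ, ‖σ z‖ :=
    (Finset.mul_prod_erase _ _ (Finset.mem_univ τ)).symm
  have h5 : ‖σ z‖ ^ (Module.finrank ℚ M - 1) ≤ ∏ σ ∈ Finset.univ.erase τ, ‖σ z‖ := by
    rw [← hcard, ← Finset.card_univ, ← Finset.card_erase_of_mem (Finset.mem_univ τ),
      ← Finset.prod_const]
    exact Finset.prod_le_prod (fun _ _ => norm_nonneg _) fun σ' _ => hσ σ'
  rw [h4] at h3
  refine le_trans ?_ h3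
  rw [mul_comm]
  exact mul_le_mul hτ h5 (by positivity) (norm_nonneg _)

/-- the maximum of the absolute values of a number and its inverse -/
noncomputable def mw (z : ℂ) : ℝ := max ‖z‖ ‖z‖⁻¹

theorem one_le_mw {z : ℂ} (hz : z ≠ 0) : 1 ≤ mw z := by
  have h0 : 0 < ‖z‖ := norm_pos_iff.2 hz
  unfold mw
  rcases le_total 1 ‖z‖ with h | h
  · exact h.trans (le_max_left _ _)
  · exact ((one_le_inv₀ h0).2 h).trans (le_max_right _ _)

theorem mw_le {z u : ℂ} (hz : z ≠ 0) (h : z ^ 2 + 1 = 2 * u ^ 2 * z) :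
    mw z ≤ 1 + 2 * ‖u‖ ^ 2 := by
  have h0 : 0 < ‖z‖ := norm_pos_iff.2 hz
  have e1 : z = 2 * u ^ 2 - z⁻¹ := by
    field_simp
    linear_combination h
  have e2 : z⁻¹ = 2 * u ^ 2 - z := by
    field_simp
    linear_combination h
  have h2 : ‖2 * u ^ 2‖ = 2 * ‖u‖ ^ 2 := by
    rw [norm_mul, norm_pow, Complex.norm_ofNat]
  unfold mw
  rcases le_total 1 ‖z‖ with h1 | h1
  · have h3 : ‖z‖⁻¹ ≤ 1 := inv_le_one_of_one_le₀ h1
    refine max_le ?_ (h3.trans (by nlinarith [sq_nonneg ‖u‖]))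
    calc ‖z‖ = ‖2 * u ^ 2 - z⁻¹‖ := by rw [← e1]
      _ ≤ ‖2 * u ^ 2‖ + ‖z⁻¹‖ := norm_sub_le _ _
      _ ≤ 1 + 2 * ‖u‖ ^ 2 := by rw [h2, norm_inv]; linarith
  · refine max_le (h1.trans (by nlinarith [sq_nonneg ‖u‖])) ?_
    calc ‖z‖⁻¹ = ‖z⁻¹‖ := by rw [norm_inv]
      _ = ‖2 * u ^ 2 - z‖ := by rw [← e2]
      _ ≤ ‖2 * u ^ 2‖ + ‖z‖ := norm_sub_le _ _
      _ ≤ 1 + 2 * ‖u‖ ^ 2 := by rw [h2]; linarith

theorem norm_le_mw (z : ℂ) : ‖z‖ ≤ mw z := le_max_left _ _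

theorem inv_le_mw (z : ℂ) : ‖z‖⁻¹ ≤ mw z := le_max_right _ _

theorem no_tower (z : ℕ → M) (hz : ∀ i, z i ≠ 0)
    (hrel : ∀ i, z (i + 1) ^ 2 + 1 = 2 * z i ^ 2 * z (i + 1))
    (hint : ∀ i, IsIntegral ℤ (2 * (z i)⁻¹)) (τ : M →ₐ[ℚ] ℂ) {A : ℝ} (hA : 1 < A)
    (hgrow : ∀ i, A ^ 2 ^ i ≤ ‖τ (z i)‖) : False := by
  set D := Module.finrank ℚ M with hD
  have hD1 : 1 ≤ D := Module.finrank_pos
  have hA0 : 0 < A := by linarith
  -- the threshold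
  obtain ⟨T, hT⟩ : ∃ T : ℕ, (6 : ℝ) ^ D ≤ A ^ 2 ^ T := by
    obtain ⟨m, hm⟩ := pow_unbounded_of_one_lt ((6 : ℝ) ^ D) hA
    exact ⟨m, hm.le.trans (pow_le_pow_right₀ hA.le Nat.lt_two_pow_self.le)⟩
  have hTi : ∀ i, T ≤ i → (6 : ℝ) ^ D ≤ A ^ 2 ^ i := fun i hi =>
    hT.trans (pow_le_pow_right₀ hA.le (Nat.pow_le_pow_right (by norm_num) hi))
  choose f hf using fun i => exists_small τ (hz i) (hint i) (a := A ^ 2 ^ i) (by positivity)
    (hgrow i)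
  -- the maximum along an embedding grows at most quadratically
  have hmul : ∀ (σ : M →ₐ[ℚ] ℂ) (i : ℕ), 3 * mw (σ (z (i + 1))) ≤ (3 * mw (σ (z i))) ^ 2 := by
    intro σ i
    have h0 : ∀ i, σ (z i) ≠ 0 := fun i => (map_ne_zero σ).2 (hz i)
    have h1 := congrArg σ (hrel i)
    simp only [map_add, map_mul, map_pow, map_one, map_ofNat] at h1
    have h2 := mw_le (h0 (i + 1)) h1
    have h3 := norm_le_mw (σ (z i))
    have h4 := one_le_mw (h0 i)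
    have h5 : ‖σ (z i)‖ ^ 2 ≤ mw (σ (z i)) ^ 2 := pow_le_pow_left₀ (norm_nonneg _) h3 2
    nlinarith
  have hchain : ∀ (σ : M →ₐ[ℚ] ℂ) (i m : ℕ),
      3 * mw (σ (z (i + m))) ≤ (3 * mw (σ (z i))) ^ 2 ^ m := by
    intro σ i m
    induction m with
    | zero => simp
    | succ m ih =>
      have h0 : 0 ≤ 3 * mw (σ (z (i + m))) := by
        have := one_le_mw ((map_ne_zero σ).2 (hz (i + m)))
        linarith
      calc 3 * mw (σ (z (i + (m + 1)))) ≤ (3 * mw (σ (z (i + m)))) ^ 2 := hmul σ (i + m)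
        _ ≤ ((3 * mw (σ (z i))) ^ 2 ^ m) ^ 2 := pow_le_pow_left₀ h0 ih 2
        _ = (3 * mw (σ (z i))) ^ 2 ^ (m + 1) := by rw [← pow_mul, pow_succ]
  -- two indices with the same embedding
  obtain ⟨j, j', hne, hjj⟩ := Finite.exists_ne_map_eq_of_infinite (fun j => f (T + j))
  have key : ∀ j j' : ℕ, j < j' → f (T + j) = f (T + j') → False := by
    intro j j' hlt heq
    set σ := f (T + j) with hσ
    have h0 : ∀ i, σ (z i) ≠ 0 := fun i => (map_ne_zero σ).2 (hz i)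
    have g1 := hf (T + j)
    rw [← hσ] at g1
    have g2 := hf (T + j')
    rw [← heq] at g2
    rw [← hD] at g1 g2
    -- the first value is small
    have s1 : ‖σ (z (T + j))‖ ≤ 1 / 2 := by
      by_contra hcon
      push Not at hcon
      have h1 : (1 / 2 : ℝ) ^ (D - 1) ≤ ‖σ (z (T + j))‖ ^ (D - 1) :=
        pow_le_pow_left₀ (by norm_num) hcon.le _
      have h2 : (1 / 2 : ℝ) ^ (D - 1) * A ^ 2 ^ (T + j) ≤ 2 ^ D :=
        (mul_le_mul_of_nonneg_right h1 (by positivity)).trans g1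
      have h3 : (6 : ℝ) ^ D ≤ A ^ 2 ^ (T + j) := hTi _ (by omega)
      have h4 : (1 / 2 : ℝ) ^ D ≤ (1 / 2) ^ (D - 1) :=
        pow_le_pow_of_le_one (by norm_num) (by norm_num) (by omega)
      have h5 : (1 / 2 : ℝ) ^ D * 6 ^ D ≤ 2 ^ D :=
        (mul_le_mul h4 h3 (by positivity) (by positivity)).trans h2
      rw [← mul_pow] at h5
      have h6 : (2 : ℝ) ^ D < (1 / 2 * 6) ^ D := pow_lt_pow_left₀ (by norm_num) (by norm_num)
        (by omega)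
      linarith
    have s2 : 3 * mw (σ (z (T + j + 1))) ≤ 6 := by
      have h1 := congrArg σ (hrel (T + j))
      simp only [map_add, map_mul, map_pow, map_one, map_ofNat] at h1
      have h2 := mw_le (h0 (T + j + 1)) h1
      have h3 : ‖σ (z (T + j))‖ ^ 2 ≤ (1 / 2) ^ 2 := pow_le_pow_left₀ (norm_nonneg _) s1 2
      linarith
    obtain ⟨m, hm⟩ : ∃ m, T + j' = T + j + 1 + m := ⟨j' - j - 1, by omega⟩
    have s3 : 3 * mw (σ (z (T + j'))) ≤ 6 ^ 2 ^ m := by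
      rw [hm]
      refine (hchain σ (T + j + 1) m).trans (pow_le_pow_left₀ ?_ s2 _)
      have := one_le_mw (h0 (T + j + 1))
      linarith
    have s4 : ((6 : ℝ) ^ 2 ^ m)⁻¹ ≤ ‖σ (z (T + j'))‖ := by
      have h1 := inv_le_mw (σ (z (T + j')))
      have h2 : 0 < ‖σ (z (T + j'))‖ := norm_pos_iff.2 (h0 _)
      have h3 : ‖σ (z (T + j'))‖⁻¹ ≤ 6 ^ 2 ^ m := by
        have := one_le_mw (h0 (T + j'))
        linarith
      exact inv_le_of_inv_le₀ h2 h3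
    have s5 : ((6 : ℝ) ^ 2 ^ m)⁻¹ ^ (D - 1) * A ^ 2 ^ (T + j') ≤ 2 ^ D :=
      (mul_le_mul_of_nonneg_right (pow_le_pow_left₀ (by positivity) s4 _) (by positivity)).trans g2
    have s6 : A ^ 2 ^ (T + j') ≤ 2 ^ D * (6 ^ 2 ^ m) ^ (D - 1) := by
      rw [inv_pow, inv_mul_le_iff₀ (by positivity)] at s5
      linarith
    have s7 : ((6 : ℝ) ^ 2 ^ m) ^ (D - 1) ≤ A ^ 2 ^ (T + j + m) := by
      calc ((6 : ℝ) ^ 2 ^ m) ^ (D - 1) ≤ (6 ^ 2 ^ m) ^ D :=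
            pow_le_pow_right₀ (one_le_pow₀ (by norm_num)) (by omega)
        _ = (6 ^ D) ^ 2 ^ m := by rw [← pow_mul, ← pow_mul, mul_comm]
        _ ≤ (A ^ 2 ^ (T + j)) ^ 2 ^ m := pow_le_pow_left₀ (by positivity) (hTi _ (by omega)) _
        _ = A ^ 2 ^ (T + j + m) := by rw [← pow_mul, ← pow_add]
    have s8 : (2 : ℝ) ^ D < A ^ 2 ^ (T + j + m) := by
      calc (2 : ℝ) ^ D < 6 ^ D := pow_lt_pow_left₀ (by norm_num) (by norm_num) (by omega)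
        _ ≤ A ^ 2 ^ (T + j + m) := hTi _ (by omega)
    have s9 : A ^ 2 ^ (T + j') = A ^ 2 ^ (T + j + m) * A ^ 2 ^ (T + j + m) := by
      rw [← pow_add, hm]
      congr 1
      rw [show T + j + 1 + m = T + j + m + 1 by ring, pow_succ]
      ring
    rw [s9] at s6
    have s10 : (2 : ℝ) ^ D * (6 ^ 2 ^ m) ^ (D - 1) < A ^ 2 ^ (T + j + m) * A ^ 2 ^ (T + j + m) :=
      mul_lt_mul s8 s7 (by positivity) (by positivity)
    linarith
  rcases lt_or_gt_of_ne hne with h | h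
  · exact key j j' h hjj
  · exact key j' j h hjj.symm

end Pool.Agent.Run7.h770.UB
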