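import Pool.Agent.Run7.h770.UB.Basic
import Pool.Agent.Run7.h770.UB.NoTower
set_option autoImplicit false

/-!
The tower of quadratic extensions generated by the parameters of the isogenous curves.
-/

namespace Pool.Agent.Run7.h770.UB

set_option linter.unusedSectionVars false

variable {Ω : Type*} [Field Ω] [CharZero Ω] [IsAlgClosure ℚ Ω] (τ : Ω →+* ℂ)

theorem exists_root (k : Ω) : ∃ n : Ω, n ≠ 0 ∧ 2 * (n ^ 2 + 1) = k * n ∧ 1 ≤ ‖τ n‖ := by
  have _ : IsAlgClosed Ω := IsAlgClosure.isAlgClosed ℚ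
  obtain ⟨s, hs⟩ := IsAlgClosed.exists_pow_nat_eq (k ^ 2 - 16) (n := 2) (by norm_num)
  set n : Ω := (k + s) / 4 with hn
  have h1 : 2 * (n ^ 2 + 1) = k * n := by
    rw [hn]
    linear_combination (1 / 8) * hs
  have h0 : n ≠ 0 := by
    intro h0
    rw [h0] at h1
    have : (2 : Ω) = 0 := by linear_combination h1
    exact two_ne_zero this
  rcases le_total 1 ‖τ n‖ with h | h
  · exact ⟨n, h0, h1, h⟩
  · refine ⟨n⁻¹, inv_ne_zero h0, ?_, ?_⟩
    · field_simp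
      linear_combination h1
    · rw [map_inv₀, norm_inv]
      exact (one_le_inv₀ (norm_pos_iff.2 ((map_ne_zero τ).2 h0))).2 h

/-- the root of `n + 1/n = k/2` which is large at `τ` -/
noncomputable def nn (k : Ω) : Ω := (exists_root τ k).choose

theorem nn_ne (k : Ω) : nn τ k ≠ 0 := (exists_root τ k).choose_spec.1

theorem nn_eq (k : Ω) : 2 * (nn τ k ^ 2 + 1) = k * nn τ k := (exists_root τ k).choose_spec.2.1

theorem nn_le (k : Ω) : 1 ≤ ‖τ (nn τ k)‖ := (exists_root τ k).choose_spec.2.2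

/-- the parameters -/
noncomputable def kk (k0 : Ω) : ℕ → Ω
  | 0 => k0
  | i + 1 => 4 * nn τ (kk k0 i) ^ 2

/-- the roots -/
noncomputable def ns (k0 : Ω) (i : ℕ) : Ω := nn τ (kk τ k0 i)

variable {k0 : Ω}

theorem kk_succ (i : ℕ) : kk τ k0 (i + 1) = 4 * ns τ k0 i ^ 2 := rfl

theorem ns_eq (i : ℕ) : 2 * (ns τ k0 i ^ 2 + 1) = kk τ k0 i * ns τ k0 i := nn_eq τ _

theorem ns_ne (i : ℕ) : ns τ k0 i ≠ 0 := nn_ne τ _

theorem ns_le (i : ℕ) : 1 ≤ ‖τ (ns τ k0 i)‖ := nn_le τ _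

theorem ns_rel (i : ℕ) : ns τ k0 (i + 1) ^ 2 + 1 = 2 * ns τ k0 i ^ 2 * ns τ k0 (i + 1) := by
  have h := ns_eq τ (k0 := k0) (i + 1)
  rw [kk_succ] at h
  have h2 : (2 : Ω) ≠ 0 := two_ne_zero
  refine mul_left_cancel₀ h2 ?_
  linear_combination h

section nondeg

variable (h0 : k0 ≠ 0) (h4 : k0 ^ 2 ≠ 16)

include h0 h4

theorem kk_good (i : ℕ) : kk τ k0 i ≠ 0 ∧ kk τ k0 i ^ 2 ≠ 16 := by
  induction i with
  | zero => exact ⟨h0, h4⟩
  | succ i ih =>
    have hn := ns_ne τ (k0 := k0) i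
    have he := ns_eq τ (k0 := k0) i
    rw [kk_succ]
    refine ⟨mul_ne_zero (by norm_num) (pow_ne_zero 2 hn), fun h => ?_⟩
    have h1 : (ns τ k0 i ^ 2 - 1) * (ns τ k0 i ^ 2 + 1) = 0 := by
      linear_combination (1 / 16) * h
    rcases mul_eq_zero.1 h1 with h2 | h2
    · apply ih.2
      have h3 : (kk τ k0 i * ns τ k0 i) ^ 2 = 16 := by
        rw [← he]
        linear_combination (4 * (ns τ k0 i ^ 2 + 1) + 8) * h2
      linear_combination h3 - kk τ k0 i ^ 2 * h2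
    · rw [h2, mul_zero] at he
      exact mul_ne_zero ih.1 hn he.symm

theorem ns_sq (i : ℕ) : ns τ k0 i ^ 2 ≠ 1 := by
  intro h
  have h1 := (kk_good τ h0 h4 i).2
  have he := ns_eq τ (k0 := k0) i
  apply h1
  have h3 : (kk τ k0 i * ns τ k0 i) ^ 2 = 16 := by
    rw [← he, h]
    norm_num
  linear_combination h3 - kk τ k0 i ^ 2 * h

theorem chain (J : ℕ) : Chain (kk τ k0) (ns τ k0) J := by
  refine ⟨fun i _ => ns_ne τ i, fun i _ => ns_sq τ h0 h4 i, fun i _ => ?_, fun i _ => kk_succ τ i⟩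
  have he := ns_eq τ (k0 := k0) i
  have hn := ns_ne τ (k0 := k0) i
  have : kk τ k0 i = 2 * (ns τ k0 i ^ 2 + 1) / ns τ k0 i := by
    rw [he, mul_div_cancel_right₀ _ hn]
  rw [this]
  field_simp

theorem grow (i : ℕ) : ‖τ (ns τ k0 i)‖ ^ 2 ≤ ‖τ (ns τ k0 (i + 1))‖ ∧
    2 * ‖τ (ns τ k0 i)‖ ^ 2 - 1 ≤ ‖τ (ns τ k0 (i + 1))‖ := by
  have hr := congrArg τ (ns_rel τ (k0 := k0) i)
  simp only [map_add, map_mul, map_pow, map_one, map_ofNat] at hr
  have h1 := ns_le τ (k0 := k0) i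
  have h2 := ns_le τ (k0 := k0) (i + 1)
  have hne : τ (ns τ k0 (i + 1)) ≠ 0 := (map_ne_zero τ).2 (ns_ne τ _)
  generalize τ (ns τ k0 i) = a at *
  generalize τ (ns τ k0 (i + 1)) = b at *
  have e : 2 * a ^ 2 = b + b⁻¹ := by
    field_simp
    linear_combination -hr
  have h3 : 2 * ‖a‖ ^ 2 ≤ ‖b‖ + 1 := by
    calc 2 * ‖a‖ ^ 2 = ‖2 * a ^ 2‖ := by rw [norm_mul, norm_pow, Complex.norm_ofNat]
      _ = ‖b + b⁻¹‖ := by rw [e]
      _ ≤ ‖b‖ + ‖b⁻¹‖ := norm_add_le _ _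
      _ ≤ ‖b‖ + 1 := by
        rw [norm_inv]
        have := inv_le_one_of_one_le₀ h2
        linarith
  constructor
  · nlinarith
  · linarith

theorem one_lt_one : 1 < ‖τ (ns τ k0 1)‖ := by
  by_contra hcon
  push Not at hcon
  have h1 := ns_le τ (k0 := k0) 0
  have h2 := (grow τ h0 h4 0).2
  rw [zero_add] at h2
  have h3 : ‖τ (ns τ k0 0)‖ = 1 := by nlinarith
  have h5 : ‖τ (ns τ k0 1)‖ = 1 := le_antisymm hcon (ns_le τ 1)
  have hr := congrArg τ (ns_rel τ (k0 := k0) 0)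
  rw [zero_add] at hr
  simp only [map_add, map_mul, map_pow, map_one, map_ofNat] at hr
  have hsq := ns_sq τ h0 h4 0
  have he := ns_eq τ (k0 := k0) 0
  have hn := ns_ne τ (k0 := k0) 0
  have hb : τ (ns τ k0 1) ≠ 0 := (map_ne_zero τ).2 (ns_ne τ _)
  have key : τ (ns τ k0 0) ^ 2 = 1 ∨ τ (ns τ k0 0) ^ 2 = -1 := by
    generalize τ (ns τ k0 0) = a at *
    generalize τ (ns τ k0 1) = b at *
    have e1 : 2 * a ^ 2 = b + b⁻¹ := by
      field_simp
      linear_combination -hr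
    have e2 : b⁻¹ = (starRingEnd ℂ) b := by
      rw [Complex.inv_def, Complex.normSq_eq_norm_sq, h5]
      simp
    rw [e2, Complex.add_conj] at e1
    set ρ : ℝ := b.re with hρ
    have e3 : a ^ 2 = (ρ : ℂ) := by
      push_cast at e1
      linear_combination (1 / 2) * e1
    have e4 : |ρ| = 1 := by
      have := congrArg norm e3
      rw [norm_pow, h3, one_pow, Complex.norm_real, Real.norm_eq_abs] at this
      exact this.symm
    rcases (abs_eq zero_le_one).1 e4 with h | h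
    · left; rw [e3, h]; simp
    · right; rw [e3, h]; simp
  rcases key with h | h
  · apply hsq
    apply τ.injective
    rw [map_pow, h, map_one]
  · have h6 : ns τ k0 0 ^ 2 + 1 = 0 := by
      apply τ.injective
      rw [map_add, map_pow, h, map_one, map_zero]
      ring
    rw [h6, mul_zero] at he
    exact mul_ne_zero (kk_good τ h0 h4 0).1 hn he.symm

theorem grow_pow (j i : ℕ) : ‖τ (ns τ k0 j)‖ ^ 2 ^ i ≤ ‖τ (ns τ k0 (j + i))‖ := by
  induction i with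
  | zero => simp
  | succ i ih =>
    have h1 := (grow τ h0 h4 (j + i)).1
    calc ‖τ (ns τ k0 j)‖ ^ 2 ^ (i + 1) = (‖τ (ns τ k0 j)‖ ^ 2 ^ i) ^ 2 := by
          rw [← pow_mul, pow_succ]
      _ ≤ ‖τ (ns τ k0 (j + i))‖ ^ 2 := pow_le_pow_left₀ (by positivity) ih 2
      _ ≤ _ := h1

theorem one_lt (j : ℕ) : 1 < ‖τ (ns τ k0 (1 + j))‖ :=
  (one_lt_pow₀ (one_lt_one τ h0 h4) (by positivity)).trans_le (grow_pow τ h0 h4 1 j)

/-- The roots become large. -/
theorem exists_large (B : ℝ) : ∃ j0, ∀ j, j0 ≤ j → B ≤ ‖τ (ns τ k0 j)‖ := by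
  obtain ⟨m, hm⟩ := pow_unbounded_of_one_lt B (one_lt_one τ h0 h4)
  refine ⟨1 + m, fun j hj => ?_⟩
  obtain ⟨i, rfl⟩ : ∃ i, j = 1 + i := ⟨j - 1, by omega⟩
  calc B ≤ ‖τ (ns τ k0 1)‖ ^ m := hm.le
    _ ≤ ‖τ (ns τ k0 1)‖ ^ 2 ^ i :=
      pow_le_pow_right₀ (one_lt_one τ h0 h4).le ((by omega : m ≤ i).trans Nat.lt_two_pow_self.le)
    _ ≤ _ := grow_pow τ h0 h4 1 i

end nondeg

section integral

/-- integrality of the roots -/
theorem int_of_quad {z k : Ω} (hk : IsIntegral ℤ k) (h : z ^ 2 - k * z + 4 = 0) :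
    IsIntegral ℤ z := by
  have h1 : IsIntegral (integralClosure ℤ Ω) z := by
    refine ⟨Polynomial.X ^ 2 - Polynomial.C (⟨k, hk⟩ : integralClosure ℤ Ω) * Polynomial.X + 4,
      by monicity!, ?_⟩
    simp only [Polynomial.eval₂_add, Polynomial.eval₂_sub, Polynomial.eval₂_mul,
      Polynomial.eval₂_pow, Polynomial.eval₂_X, Polynomial.eval₂_C, Polynomial.eval₂_ofNat]
    exact h
  exact isIntegral_trans (A := integralClosure ℤ Ω) z h1

variable (hi : IsIntegral ℤ k0)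

include hi

theorem kk_int (i : ℕ) : IsIntegral ℤ (kk τ k0 i) := by
  induction i with
  | zero => exact hi
  | succ i ih =>
    have he := ns_eq τ (k0 := k0) i
    have h1 : IsIntegral ℤ (2 * ns τ k0 i) := int_of_quad ih (by linear_combination 2 * he)
    have h2 : kk τ k0 (i + 1) = (2 * ns τ k0 i) ^ 2 := by
      rw [kk_succ]
      ring
    rw [h2]
    exact h1.pow 2

theorem inv_int (i : ℕ) : IsIntegral ℤ (2 * (ns τ k0 i)⁻¹) := by
  have he := ns_eq τ (k0 := k0) i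
  have hn := ns_ne τ (k0 := k0) i
  refine int_of_quad (kk_int τ hi i) ?_
  field_simp
  linear_combination 2 * he

end integral

section proper

/-- the field generated by `k0` and the first `J` roots -/
noncomputable def MJ (k0 : Ω) (J : ℕ) : IntermediateField ℚ Ω :=
  IntermediateField.adjoin ℚ (insert k0 (ns τ k0 '' Set.Iio J))

theorem k0_mem (J : ℕ) : k0 ∈ MJ τ k0 J :=
  IntermediateField.subset_adjoin _ _ (Set.mem_insert _ _)

theorem ns_mem {J i : ℕ} (h : i < J) : ns τ k0 i ∈ MJ τ k0 J :=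
  IntermediateField.subset_adjoin _ _ (Set.mem_insert_of_mem _ ⟨i, h, rfl⟩)

theorem MJ_succ_le {J : ℕ} (h : ns τ k0 J ∈ MJ τ k0 J) : MJ τ k0 (J + 1) ≤ MJ τ k0 J := by
  refine IntermediateField.adjoin_le_iff.2 ?_
  rintro x (rfl | ⟨i, hi, rfl⟩)
  · exact k0_mem τ J
  · rcases Nat.lt_succ_iff_lt_or_eq.1 hi with h1 | h1
    · exact ns_mem τ h1
    · rw [h1]
      exact h

theorem finite_MJ (J : ℕ) : FiniteDimensional ℚ (MJ τ k0 J) := by
  have _ : Algebra.IsAlgebraic ℚ Ω := IsAlgClosure.isAlgebraic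
  have hfin : (insert k0 (ns τ k0 '' Set.Iio J)).Finite :=
    ((Set.finite_Iio J).image _).insert _
  have _ : Finite (insert k0 (ns τ k0 '' Set.Iio J) : Set Ω) := hfin
  exact IntermediateField.finiteDimensional_adjoin fun x _ =>
    (Algebra.IsAlgebraic.isAlgebraic x).isIntegral

variable (h0 : k0 ≠ 0) (h4 : k0 ^ 2 ≠ 16) (hi : IsIntegral ℤ k0)

include h0 h4 hi

/-- The tower does not become stationary. -/
theorem exists_proper (i0 : ℕ) : ∃ J, i0 ≤ J ∧ ns τ k0 J ∉ MJ τ k0 J := by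
  by_contra hcon
  push Not at hcon
  have hle : ∀ m, MJ τ k0 (i0 + m) ≤ MJ τ k0 i0 := by
    intro m
    induction m with
    | zero => exact le_rfl
    | succ m ih => exact (MJ_succ_le τ (hcon (i0 + m) (by omega))).trans ih
  have hmem : ∀ m, ns τ k0 (i0 + 1 + m) ∈ MJ τ k0 i0 := fun m =>
    hle (1 + m) (by rw [← add_assoc]; exact hcon (i0 + 1 + m) (by omega))
  have _ := finite_MJ τ (k0 := k0) i0
  have _ : NumberField (MJ τ k0 i0) := ⟨⟩
  refine no_tower (M := MJ τ k0 i0) (fun m => ⟨ns τ k0 (i0 + 1 + m), hmem m⟩) (fun m h => ?_)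
    (fun m => ?_) (fun m => ?_) (τ.comp (algebraMap (MJ τ k0 i0) Ω)).toRatAlgHom
    (A := ‖τ (ns τ k0 (i0 + 1))‖) ?_ (fun m => ?_)
  · exact ns_ne τ _ (congrArg Subtype.val h)
  · apply Subtype.val_injective
    exact ns_rel τ (i0 + 1 + m)
  · have h1 := inv_int τ hi (i0 + 1 + m)
    have h2 : algebraMap (MJ τ k0 i0) Ω (2 * (⟨ns τ k0 (i0 + 1 + m), hmem m⟩ : MJ τ k0 i0)⁻¹) =
        2 * (ns τ k0 (i0 + 1 + m))⁻¹ := by
      rw [map_mul, map_inv₀, map_ofNat]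
      rfl
    rw [← h2] at h1
    exact (isIntegral_algebraMap_iff (algebraMap (MJ τ k0 i0) Ω).injective).1 h1
  · have := one_lt τ h0 h4 i0
    rwa [add_comm 1 i0] at this
  · exact grow_pow τ h0 h4 (i0 + 1) m

omit hi in
/-- A conjugation over the `J`-th field. -/
theorem exists_conj {J : ℕ} (hJ : ns τ k0 J ∉ MJ τ k0 J) :
    ∃ g : Ω →+* Ω, g k0 = k0 ∧ (∀ i, i < J → g (ns τ k0 i) = ns τ k0 i) ∧
      g (ns τ k0 J) = (ns τ k0 J)⁻¹ := by
  have _ : IsGalois ℚ Ω := inferInstance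
  have hnot : ¬ ∀ f : Ω ≃ₐ[MJ τ k0 J] Ω, f (ns τ k0 J) = ns τ k0 J := by
    intro h
    apply hJ
    have h1 := (InfiniteGalois.mem_bot_iff_fixed (k := MJ τ k0 J) (K := Ω) (ns τ k0 J)).2 h
    obtain ⟨y, hy⟩ := IntermediateField.mem_bot.1 h1
    rw [← hy]
    exact y.2
  push Not at hnot
  obtain ⟨g, hg⟩ := hnot
  have hfix : ∀ x ∈ MJ τ k0 J, g x = x := fun x hx => g.commutes ⟨x, hx⟩
  have hkk : ∀ i, i ≤ J → kk τ k0 i ∈ MJ τ k0 J := by
    intro i hiJ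
    cases i with
    | zero => exact k0_mem τ J
    | succ i =>
      rw [kk_succ]
      have h1 : ns τ k0 i ∈ MJ τ k0 J := ns_mem τ (by omega)
      have h2 : (4 : Ω) ∈ MJ τ k0 J := by simp
      exact mul_mem h2 (pow_mem h1 2)
  refine ⟨(g : Ω →+* Ω), hfix _ (k0_mem τ J), fun i hiJ => hfix _ (ns_mem τ hiJ), ?_⟩
  show g (ns τ k0 J) = _
  have he := ns_eq τ (k0 := k0) J
  have hn := ns_ne τ (k0 := k0) J
  have h1 := congrArg g he
  rw [map_mul, map_mul, map_add, map_pow, map_one, map_ofNat, hfix _ (hkk J le_rfl)] at h1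
  have h2 : (g (ns τ k0 J) - ns τ k0 J) * (2 * (g (ns τ k0 J) * ns τ k0 J - 1)) = 0 := by
    linear_combination ns τ k0 J * h1 - g (ns τ k0 J) * he
  rcases mul_eq_zero.1 h2 with h3 | h3
  · exact absurd (sub_eq_zero.1 h3) hg
  · have h5 : g (ns τ k0 J) * ns τ k0 J - 1 = 0 := by
      rcases mul_eq_zero.1 h3 with h6 | h6
      · exact absurd h6 two_ne_zero
      · exact h6
    exact eq_inv_of_mul_eq_one_left (sub_eq_zero.1 h5)

end proper

end Pool.Agent.Run7.h770.UB
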