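import Pool.Agent.Run7.h770.UB.Rows
import Pool.Agent.Run7.h770.UB.Tower
set_option autoImplicit false

/-!
Many independent classes on every elliptic curve with integral `j`-invariant.
-/

namespace Pool.Agent.Run7.h770.UB

open Pool.Agent.W367.KT Pool.Agent.T6.H7.SX

open Pool.Agent.Run7.h770.IJ (crv jk exists_crv descend)

open WeierstrassCurve

open scoped TensorProduct

section classes

set_option linter.unusedSectionVars false

variable {L : Type*} [Field L] [NumberField L] (W : WeierstrassCurve L) (C : VariableChange L)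
  (kL nL : ℕ → L)

open Classical in
/-- a nonzero element as a unit -/
noncomputable def tu {F : Type*} [Field F] (x : F) : Fˣ := if h : x = 0 then 1 else Units.mk0 x h

theorem tu_val {F : Type*} [Field F] {x : F} (h : x ≠ 0) : (tu x : F) = x := by
  unfold tu
  rw [dif_neg h]
  rfl

/-- the classes `{x_i, y_i}` -/
noncomputable def cls (i : ℕ) : ℚ ⊗[ℤ] K2 W.toAffine.FunctionField :=
  (1 : ℚ) ⊗ₜ[ℤ] symb (tu (xi W C nL i)) (tu (yi W C (kL 0) nL i))

theorem regQ_cls (γ : Loop W.toAffine.FunctionField) {i : ℕ} (hx : xi W C nL i ≠ 0)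
    (hy : yi W C (kL 0) nL i ≠ 0) : γ.regQ (cls W C kL nL i) =
      prK (fun t => γ.e t (xi W C nL i)) (fun t => γ.e t (yi W C (kL 0) nL i)) := by
  unfold cls
  rw [Loop.regQ_tmul, one_smul]
  unfold Loop.pair Loop.form prK
  rw [tu_val hx, tu_val hy]

theorem cls_mem {i : ℕ} (hx : xi W C nL i ≠ 0) (hy : yi W C (kL 0) nL i ≠ 0)
    (h : Sm (cst W (kL i)) (xi W C nL i) (yi W C (kL 0) nL i)) (hi : IsIntegral ℤ (kL i)) :
    cls W C kL nL i ∈ H2MZ W.toAffine.FunctionField := by
  unfold cls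
  refine mem_H2MZ (k := cst W (kL i)) (fun v => ?_) ?_ 1
  · exact val_le_one_of_int v (map_isIntegral_int (cst W) hi)
  · rw [tu_val hx, tu_val hy]
    exact h

variable {W C kL nL}

/-- The determinant. -/
theorem indep {N r : ℕ} (hC : C • W = crv (kL 0)) (hk : kL 0 ≠ 0) (hc : Chain kL nL N)
    (hint : ∀ i, i ≤ N → IsIntegral ℤ (kL i)) (φ : ℕ → ℕ) (hφ : StrictMono φ)
    (hφN : ∀ b, b < r → φ b < N) (σ σ' : ℕ → (L →+* ℂ))
    (hk0 : ∀ b, b < r → σ' b (kL 0) = σ b (kL 0))
    (hn : ∀ b, b < r → ∀ i, i < φ b → σ' b (nL i) = σ b (nL i))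
    (hnJ : ∀ b, b < r → σ' b (nL (φ b)) = (σ b (nL (φ b)))⁻¹)
    (hbig : ∀ b, b < r → 100 ≤ ‖σ b (nL (φ b))‖) :
    IndepClasses W.toAffine.FunctionField r := by
  have hex := fun b : Fin r => exists_pair hC hk hc (hφN b b.2) (hk0 b b.2) (hn b b.2)
    (hnJ b b.2) (hbig b b.2)
  choose γ γ' h1 h2 h3 using hex
  set α : Fin r → ℚ ⊗[ℤ] K2 W.toAffine.FunctionField := fun b => cls W C kL nL (φ b + 1) with hα
  set A : Matrix (Fin r) (Fin r) ℝ := Matrix.of fun i j => (γ i).regQ (α j) with hA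
  set B : Matrix (Fin r) (Fin r) ℝ := Matrix.of fun i j => (γ' i).regQ (α j) with hB
  have hle : ∀ b : Fin r, φ b + 1 ≤ N := fun b => hφN b b.2
  have eA : ∀ i j, A i j = prK (fun t => (γ i).e t (xi W C nL (φ j + 1)))
      (fun t => (γ i).e t (yi W C (kL 0) nL (φ j + 1))) := by
    intro i j
    obtain ⟨a1, a2, -⟩ := h1 j (φ j + 1) (hle j)
    exact regQ_cls W C kL nL (γ i) a1 a2
  have eB : ∀ i j, B i j = prK (fun t => (γ' i).e t (xi W C nL (φ j + 1)))
      (fun t => (γ' i).e t (yi W C (kL 0) nL (φ j + 1))) := by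
    intro i j
    obtain ⟨a1, a2, -⟩ := h1 j (φ j + 1) (hle j)
    exact regQ_cls W C kL nL (γ' i) a1 a2
  have hmem : ∀ j, α j ∈ H2MZ W.toAffine.FunctionField := by
    intro j
    obtain ⟨a1, a2, a3⟩ := h1 j (φ j + 1) (hle j)
    exact cls_mem W C kL nL a1 a2 a3 (hint _ (hle j))
  have htri : (A - B).BlockTriangular id := by
    intro i j hij
    rw [Matrix.sub_apply, eA, eB, sub_eq_zero]
    refine h2 i (φ j + 1) ?_
    exact hφ (by exact_mod_cast hij)
  have hdiag : ∀ i, (A - B) i i ≠ 0 := by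
    intro i
    rw [Matrix.sub_apply, eA, eB, sub_ne_zero]
    exact h3 i
  have hdet : (A - B).det ≠ 0 := by
    rw [Matrix.det_of_isUpperTriangular htri]
    exact Finset.prod_ne_zero_iff.2 fun i _ => hdiag i
  obtain ⟨s, hs⟩ := exists_rows A B hdet
  classical
  refine indepClasses_of_det (fun i => if i ∈ s then γ i else γ' i) α hmem ?_
  convert hs using 2
  funext i j
  by_cases hi : i ∈ s
  · simp only [Matrix.of_apply, hi, if_true]
    rfl
  · simp only [Matrix.of_apply, hi, if_false]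
    rfl

end classes

section final

theorem isAlgClosure_rat (K : Type*) [Field K] [NumberField K] {Ω : Type*} [Field Ω] [CharZero Ω]
    [Algebra K Ω] [IsAlgClosure K Ω] : IsAlgClosure ℚ Ω := by
  have _ : Algebra.IsAlgebraic K Ω := IsAlgClosure.isAlgebraic
  have _ : Algebra.IsAlgebraic ℚ K := inferInstance
  exact ⟨IsAlgClosure.isAlgClosed K, Algebra.IsAlgebraic.trans ℚ K Ω⟩

theorem k_int {Ω : Type*} [Field Ω] {k j : Ω} (hj : IsIntegral ℤ j)
    (h : (k ^ 4 - 16 * k ^ 2 + 16) ^ 3 = j * (k ^ 2 * (k ^ 2 - 16))) : IsIntegral ℤ k := by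
  have h1 : IsIntegral (integralClosure ℤ Ω) k := by
    refine ⟨(Polynomial.X ^ 4 - 16 * Polynomial.X ^ 2 + 16) ^ 3 -
      Polynomial.C (⟨j, hj⟩ : integralClosure ℤ Ω) *
        (Polynomial.X ^ 2 * (Polynomial.X ^ 2 - 16)), by monicity!, ?_⟩
    simp only [Polynomial.eval₂_add, Polynomial.eval₂_sub, Polynomial.eval₂_mul,
      Polynomial.eval₂_pow, Polynomial.eval₂_X, Polynomial.eval₂_C, Polynomial.eval₂_ofNat]
    show (k ^ 4 - 16 * k ^ 2 + 16) ^ 3 - j * (k ^ 2 * (k ^ 2 - 16)) = 0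
    rw [h, sub_self]
  exact isIntegral_trans (A := integralClosure ℤ Ω) k h1

/-- The main theorem over an algebraic closure. -/
theorem main_aux {K : Type*} [Field K] [NumberField K] {Ω : Type*} [Field Ω] [CharZero Ω]
    [Algebra K Ω] [IsAlgClosure K Ω] (E : WeierstrassCurve K) {k0 : Ω} (h0 : k0 ≠ 0)
    (h4 : k0 ^ 2 ≠ 16) (hi : IsIntegral ℤ k0) (C : VariableChange Ω)
    (hC : C • E.map (algebraMap K Ω) = crv k0) (r : ℕ) :
    ∃ (L : IntermediateField K Ω) (_ : NumberField L),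
      IndepClasses (E.map (algebraMap K L)).toAffine.FunctionField r := by
  have _ : IsAlgClosure ℚ Ω := isAlgClosure_rat K
  have _ : Algebra.IsAlgebraic ℚ Ω := IsAlgClosure.isAlgebraic
  have _ : Algebra.IsAlgebraic K Ω := IsAlgClosure.isAlgebraic
  have τ : Ω →+* ℂ := (IsAlgClosed.lift (R := ℚ) (S := Ω) (M := ℂ)).toRingHom
  obtain ⟨j0, hj0⟩ := exists_large τ h0 h4 100
  obtain ⟨φ, hφ, hφ2⟩ : ∃ φ : ℕ → ℕ, StrictMono φ ∧
      ∀ b, j0 ≤ φ b ∧ ns τ k0 (φ b) ∉ MJ τ k0 (φ b) := by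
    refine Nat.exists_strictMono_subsequence (P := fun J => j0 ≤ J ∧ ns τ k0 J ∉ MJ τ k0 J)
      fun n => ?_
    obtain ⟨J, hJ, hJ2⟩ := exists_proper τ h0 h4 hi (max j0 (n + 1))
    exact ⟨J, by omega, by omega, hJ2⟩
  choose g hg1 hg2 hg3 using fun b => exists_conj τ h0 h4 (hφ2 b).2
  set N := φ r with hN
  set S : Set Ω := insert k0 (insert (C.u : Ω) (insert C.r (insert C.s (insert C.t
    (ns τ k0 '' Set.Iio N))))) with hS
  have hfin : S.Finite := by
    rw [hS]
    exact (((((((Set.finite_Iio N).image _).insert _).insert _).insert _).insert _).insert _)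
  set L := IntermediateField.adjoin K S with hL
  have hsub : S ⊆ L := IntermediateField.subset_adjoin K S
  have _ : Finite S := hfin
  have hfd : FiniteDimensional K L :=
    IntermediateField.finiteDimensional_adjoin fun x _ =>
      (Algebra.IsAlgebraic.isAlgebraic x).isIntegral
  have _ : FiniteDimensional ℚ L := Module.Finite.trans K L
  have hnf : NumberField L := ⟨⟩
  have hk : k0 ∈ L := hsub (by rw [hS]; simp)
  have hns : ∀ i, i < N → ns τ k0 i ∈ L := by
    intro i hi
    apply hsub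
    rw [hS]
    simp only [Set.mem_insert_iff]
    exact Or.inr (Or.inr (Or.inr (Or.inr (Or.inr ⟨i, hi, rfl⟩))))
  obtain ⟨C', hC'⟩ := descend L E ⟨k0, hk⟩ C (hsub (by rw [hS]; simp)) (hsub (by rw [hS]; simp))
    (hsub (by rw [hS]; simp)) (hsub (by rw [hS]; simp)) hC
  classical
  -- the parameters in `L`
  set nL : ℕ → L := fun i => if h : i < N then ⟨ns τ k0 i, hns i h⟩ else 1 with hnL
  have nLv : ∀ i, i < N → (nL i : Ω) = ns τ k0 i := by
    intro i h
    rw [hnL]
    simp only [h, dif_pos]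
  set kL : ℕ → L := fun i => Nat.casesOn i (⟨k0, hk⟩ : L) fun i => 4 * nL i ^ 2 with hkL
  have kLv : ∀ i, i ≤ N → (kL i : Ω) = kk τ k0 i := by
    intro i h
    cases i with
    | zero => rfl
    | succ i =>
      show ((4 * nL i ^ 2 : L) : Ω) = _
      rw [kk_succ, ← nLv i (by omega)]
      push_cast
      rfl
  have hchain : Chain kL nL N := by
    have h1 := chain τ h0 h4 N
    have hinj : Function.Injective (algebraMap L Ω) := (algebraMap L Ω).injective
    refine ⟨fun i h h2 => h1.n0 i h ?_, fun i h h2 => h1.n2 i h ?_, fun i h => ?_, fun i _ => rfl⟩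
    · rw [← nLv i h, h2]
      rfl
    · rw [← nLv i h]
      have := congrArg (algebraMap L Ω) h2
      simpa using this
    · apply hinj
      show (kL i : Ω) = algebraMap L Ω (2 * (nL i + (nL i)⁻¹))
      rw [kLv i h.le, h1.k1 i h, map_mul, map_add, map_inv₀, map_ofNat]
      show _ = 2 * ((nL i : Ω) + (nL i : Ω)⁻¹)
      rw [nLv i h]
  have hint : ∀ i, i ≤ N → IsIntegral ℤ (kL i) := by
    intro i h
    have h1 := kk_int τ hi i
    rw [← kLv i h] at h1
    exact (isIntegral_algebraMap_iff (algebraMap L Ω).injective).1 h1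
  refine ⟨L, hnf, indep (C := C') (kL := kL) (nL := nL) (N := N) hC' ?_ hchain hint φ hφ
    (fun b hb => hφ hb) (fun _ => τ.comp (algebraMap L Ω))
    (fun b => (τ.comp (g b)).comp (algebraMap L Ω)) (fun b _ => ?_) (fun b hb i hib => ?_)
    (fun b hb => ?_) (fun b hb => ?_)⟩
  · intro h
    exact h0 (congrArg Subtype.val h)
  · show τ (g b k0) = τ k0
    rw [hg1]
  · have hiN : i < N := hib.trans (hφ hb)
    show τ (g b (nL i : Ω)) = τ (nL i : Ω)
    rw [nLv i hiN, hg2 b i hib]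
  · show τ (g b (nL (φ b) : Ω)) = (τ (nL (φ b) : Ω))⁻¹
    rw [nLv _ (hφ hb), hg3, map_inv₀]
  · show 100 ≤ ‖τ (nL (φ b) : Ω)‖
    rw [nLv _ (hφ hb)]
    exact hj0 _ (hφ2 b).1

end final

/-- Every elliptic curve with integral `j`-invariant over a number field has, over a suitable finite
extension, any given number of independent classes. -/
theorem main (K : Type*) [Field K] [NumberField K] (E : WeierstrassCurve K) [E.IsElliptic]
    (hj : IsIntegral ℤ E.j) (r : ℕ) :
    ∃ (L : IntermediateField K (AlgebraicClosure K)) (_ : NumberField L),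
      IndepClasses (E.map (algebraMap K L)).toAffine.FunctionField r := by
  obtain ⟨k, h0, h4, hjk, C, hC⟩ := exists_crv (E.map (algebraMap K (AlgebraicClosure K)))
  refine main_aux E h0 h4 ?_ C hC r
  refine k_int (j := jk k) ?_ ?_
  · rw [hjk, WeierstrassCurve.map_j]
    exact map_isIntegral_int _ hj
  · unfold jk
    rw [div_mul_cancel₀]
    exact mul_ne_zero (pow_ne_zero 2 h0) (sub_ne_zero.2 h4)

end Pool.Agent.Run7.h770.UB
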