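import Mathlib
set_option autoImplicit false

/-!
The curves `x + 1/x + y + 1/y = k` and a `2`-isogeny between them.
-/

namespace Pool.Agent.Run7.h770.UB

section alg

variable {F : Type*} [Field F]

/-- The equation `x + 1/x + y + 1/y = k`. -/
def Sm (k x y : F) : Prop := x + x⁻¹ + y + y⁻¹ = k

theorem Sm.symm {k x y : F} (h : Sm k x y) : Sm k y x := by
  unfold Sm at *
  rw [← h]
  ring

/-- The isogeny `x ↦ x (n x - 1) / (x - n)` from the curve with parameter `2 (n + 1/n)` to the curve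
with parameter `4 n²`. -/
def gg (n x : F) : F := x * (n * x - 1) / (x - n)

theorem gg_add {n x : F} (hx : x ≠ 0) (h1 : x ≠ n) (h2 : n * x ≠ 1) :
    gg n x + (gg n x)⁻¹ = (n * (x + x⁻¹) - (n ^ 2 + 1)) + 2 * n ^ 2 +
      (n ^ 2 - 1) ^ 2 / (n * (x + x⁻¹) - (n ^ 2 + 1)) := by
  have ha : n * x - 1 ≠ 0 := sub_ne_zero.2 h2
  have hb : x - n ≠ 0 := sub_ne_zero.2 h1
  have hu : n * (x + x⁻¹) - (n ^ 2 + 1) = (n * x - 1) * (x - n) / x := by
    field_simp
    ring
  rw [hu]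
  unfold gg
  obtain ⟨a, ha'⟩ : ∃ a, a = n * x - 1 := ⟨_, rfl⟩
  obtain ⟨b, hb'⟩ : ∃ b, b = x - n := ⟨_, rfl⟩
  rw [← ha', ← hb']
  rw [← ha'] at ha
  rw [← hb'] at hb
  field_simp
  rw [ha', hb']
  ring

theorem Sm.step {n x y : F} (hn : n ≠ 0) (hx : x ≠ 0) (hy : y ≠ 0) (h1 : x ≠ n) (h2 : n * x ≠ 1)
    (h3 : y ≠ n) (h4 : n * y ≠ 1) (h : Sm (2 * (n + n⁻¹)) x y) :
    Sm (4 * n ^ 2) (gg n x) (gg n y) := by
  have e1 := gg_add hx h1 h2
  have e2 := gg_add hy h3 h4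
  unfold Sm at *
  have h5 : n * (y + y⁻¹) - (n ^ 2 + 1) = -(n * (x + x⁻¹) - (n ^ 2 + 1)) := by
    have h6 : n * (x + x⁻¹ + y + y⁻¹) = 2 * (n ^ 2 + 1) := by
      rw [h]
      field_simp
    linear_combination h6
  rw [h5] at e2
  have h7 : gg n x + (gg n x)⁻¹ + gg n y + (gg n y)⁻¹ =
      (gg n x + (gg n x)⁻¹) + (gg n y + (gg n y)⁻¹) := by ring
  rw [h7, e1, e2, div_neg]
  ring

theorem gg_ne {n x : F} (hx : x ≠ 0) (h1 : x ≠ n) (h2 : n * x ≠ 1) : gg n x ≠ 0 :=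
  div_ne_zero (mul_ne_zero hx (sub_ne_zero.2 h2)) (sub_ne_zero.2 h1)

section lift

variable {n x' y' w : F}

/-- the point over `(x', y')` given by the square root `w` of `- x' / y'` -/
def lf (n x' y' w : F) : F := (1 + x' + w * (y' - 1)) / (2 * n)

variable (h2 : (2 : F) ≠ 0) (hn : n ≠ 0) (hx : x' ≠ 0) (hy : y' ≠ 0) (hw : w ^ 2 * y' = -x')
  (h : Sm (4 * n ^ 2) x' y')

include h2 hn hx hy hw h

theorem lf_mul : lf n x' y' w * lf n x' y' (-w) = x' := by
  have hS : x' ^ 2 * y' + y' + x' * y' ^ 2 + x' = 4 * n ^ 2 * (x' * y') := by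
    unfold Sm at h
    rw [← h]
    field_simp
  unfold lf
  rw [div_mul_div_comm, div_eq_iff (mul_ne_zero (mul_ne_zero h2 hn) (mul_ne_zero h2 hn))]
  refine mul_right_cancel₀ hy ?_
  linear_combination hS - (y' - 1) ^ 2 * hw

theorem lf_ne : lf n x' y' w ≠ 0 := by
  intro h0
  have h1 := lf_mul h2 hn hx hy hw h
  rw [h0, zero_mul] at h1
  exact hx h1.symm

theorem lf_quad : n * lf n x' y' w ^ 2 - (1 + x') * lf n x' y' w + n * x' = 0 := by
  have h1 := lf_mul h2 hn hx hy hw h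
  have h3 : n * (lf n x' y' w + lf n x' y' (-w)) = 1 + x' := by
    unfold lf
    field_simp
    ring
  rw [← h3]
  linear_combination -n * h1

theorem lf_ne_n (hn2 : n ^ 2 ≠ 1) : lf n x' y' w ≠ n := by
  intro h0
  have h1 := lf_quad h2 hn hx hy hw h
  rw [h0] at h1
  have h3 : n * (n ^ 2 - 1) = 0 := by linear_combination h1
  rcases mul_eq_zero.1 h3 with h4 | h4
  · exact hn h4
  · exact hn2 (sub_eq_zero.1 h4)

theorem n_lf_ne (hn2 : n ^ 2 ≠ 1) : n * lf n x' y' w ≠ 1 := by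
  intro h0
  have h1 := lf_quad h2 hn hx hy hw h
  have h3 : x' * (n ^ 2 - 1) = 0 := by
    linear_combination n * h1 - (n * lf n x' y' w + 1 - (1 + x')) * h0
  rcases mul_eq_zero.1 h3 with h4 | h4
  · exact hx h4
  · exact hn2 (sub_eq_zero.1 h4)

theorem gg_lf (hn2 : n ^ 2 ≠ 1) : gg n (lf n x' y' w) = x' := by
  have h1 := lf_quad h2 hn hx hy hw h
  have h3 := lf_ne_n h2 hn hx hy hw h hn2
  unfold gg
  rw [div_eq_iff (sub_ne_zero.2 h3)]
  linear_combination h1

theorem sm_lf : Sm (2 * (n + n⁻¹)) (lf n x' y' w) (lf n y' x' w⁻¹) := by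
  have hw0 : w ≠ 0 := by
    rintro rfl
    apply hx
    have : -x' = 0 := by rw [← hw]; ring
    exact neg_eq_zero.1 this
  have hw' : w⁻¹ ^ 2 * x' = -y' := by
    rw [inv_pow]
    have : x' = -(w ^ 2 * y') := by rw [hw, neg_neg]
    rw [this]
    field_simp
  have h1 := lf_mul h2 hn hx hy hw h
  have h3 := lf_mul h2 hn hy hx hw' h.symm
  have h4 : (lf n x' y' w)⁻¹ = lf n x' y' (-w) / x' := by
    rw [eq_div_iff hx]
    exact (inv_mul_eq_iff_eq_mul₀ (lf_ne h2 hn hx hy hw h)).2 h1.symm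
  have h5 : (lf n y' x' w⁻¹)⁻¹ = lf n y' x' (-w⁻¹) / y' := by
    rw [eq_div_iff hy]
    exact (inv_mul_eq_iff_eq_mul₀ (lf_ne h2 hn hy hx hw' h.symm)).2 h3.symm
  unfold Sm
  rw [h4, h5]
  unfold Sm at h
  unfold lf
  have hS : x' ^ 2 * y' + y' + x' * y' ^ 2 + x' = 4 * n ^ 2 * (x' * y') := by
    rw [← h]
    field_simp
  field_simp
  linear_combination w * hS + ((x' - 1) * (y' - 1)) * hw

end lift

/-- The iterates. -/
def it (n : ℕ → F) (x : F) : ℕ → F
  | 0 => x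
  | i + 1 => gg (n i) (it n x i)

theorem map_gg {F' : Type*} [Field F'] (e : F →+* F') (n x : F) : e (gg n x) = gg (e n) (e x) := by
  unfold gg
  rw [map_div₀, map_mul, map_sub, map_sub, map_mul, map_one]

theorem map_it {F' : Type*} [Field F'] (e : F →+* F') (n : ℕ → F) (x : F) (i : ℕ) :
    e (it n x i) = it (fun j => e (n j)) (e x) i := by
  induction i with
  | zero => rfl
  | succ i ih =>
    show e (gg (n i) (it n x i)) = gg (e (n i)) (it (fun j => e (n j)) (e x) i)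
    rw [map_gg, ih]

theorem it_congr {n n' : ℕ → F} {x : F} {i : ℕ} (h : ∀ j, j < i → n j = n' j) :
    it n x i = it n' x i := by
  induction i with
  | zero => rfl
  | succ i ih =>
    show gg (n i) (it n x i) = gg (n' i) (it n' x i)
    rw [ih fun j hj => h j (by omega), h i (by omega)]

/-- The relations between the parameters of the curves. -/
structure Chain (k n : ℕ → F) (J : ℕ) : Prop where
  n0 : ∀ i, i < J → n i ≠ 0
  n2 : ∀ i, i < J → n i ^ 2 ≠ 1
  k1 : ∀ i, i < J → k i = 2 * (n i + (n i)⁻¹)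
  k2 : ∀ i, i < J → k (i + 1) = 4 * n i ^ 2

theorem Chain.mono {k n : ℕ → F} {J J' : ℕ} (h : Chain k n J) (hJ : J' ≤ J) : Chain k n J' :=
  ⟨fun i hi => h.n0 i (by omega), fun i hi => h.n2 i (by omega), fun i hi => h.k1 i (by omega),
    fun i hi => h.k2 i (by omega)⟩

theorem Chain.map {F' : Type*} [Field F'] {k n : ℕ → F} {J : ℕ} (h : Chain k n J) (e : F →+* F') :
    Chain (fun i => e (k i)) (fun i => e (n i)) J := by
  refine ⟨fun i hi => (map_ne_zero e).2 (h.n0 i hi), fun i hi h1 => h.n2 i hi ?_, fun i hi => ?_,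
    fun i hi => ?_⟩
  · apply e.injective
    rw [map_pow, h1, map_one]
  · show e (k i) = _
    rw [h.k1 i hi, map_mul, map_add, map_inv₀, map_ofNat]
  · show e (k (i + 1)) = _
    rw [h.k2 i hi, map_mul, map_pow, map_ofNat]

end alg

section trans

theorem alg_of_quad {a b c x : ℂ} (ha : IsAlgebraic ℚ a) (hb : IsAlgebraic ℚ b)
    (hc : IsAlgebraic ℚ c) (ha0 : a ≠ 0) (h : a * x ^ 2 + b * x + c = 0) : IsAlgebraic ℚ x := by
  have h4 : IsAlgebraic ℚ (4 : ℂ) := by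
    have := isAlgebraic_algebraMap (R := ℚ) (A := ℂ) 4
    simpa using this
  have h2 : IsAlgebraic ℚ (2 : ℂ) := by
    have := isAlgebraic_algebraMap (R := ℚ) (A := ℂ) 2
    simpa using this
  have h1 : (2 * a * x + b) ^ 2 = b ^ 2 - 4 * a * c := by linear_combination 4 * a * h
  have h3 : IsAlgebraic ℚ ((2 * a * x + b) ^ 2) := by
    rw [h1]
    exact (hb.pow 2).sub ((h4.mul ha).mul hc)
  have h5 : IsAlgebraic ℚ (2 * a * x + b) := h3.of_pow (by norm_num)
  have h6 : x = (2 * a * x + b - b) * (2 * a)⁻¹ := by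
    field_simp
    ring
  rw [h6]
  exact (h5.sub hb).mul (h2.mul ha).inv

theorem tr_gg {n x : ℂ} (hn : IsAlgebraic ℚ n) (hn0 : n ≠ 0) (hx : Transcendental ℚ x) :
    Transcendental ℚ (gg n x) := by
  intro h
  apply hx
  have hxn : x - n ≠ 0 := by
    intro h0
    apply hx
    rw [sub_eq_zero.1 h0]
    exact hn
  refine alg_of_quad hn ((isAlgebraic_one.add h).neg) (hn.mul h) hn0 ?_
  have h1 : gg n x * (x - n) = x * (n * x - 1) := by
    unfold gg
    rw [div_mul_cancel₀ _ hxn]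
  linear_combination -h1

theorem tr_y {k x y : ℂ} (hk : IsAlgebraic ℚ k) (hx : Transcendental ℚ x) (h : Sm k x y) :
    Transcendental ℚ y := by
  intro hy
  apply hx
  have hx0 : x ≠ 0 := by
    rintro rfl
    exact hx isAlgebraic_zero
  refine alg_of_quad (a := 1) (b := -(k - y - y⁻¹)) (c := 1) isAlgebraic_one
    (((hk.sub hy).sub hy.inv).neg) isAlgebraic_one one_ne_zero ?_
  unfold Sm at h
  rw [← h]
  field_simp
  ring

theorem all_sm {k n : ℕ → ℂ} {J : ℕ} (hc : Chain k n J) (ha : ∀ i, i < J → IsAlgebraic ℚ (n i))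
    (hk : IsAlgebraic ℚ (k 0)) {x y : ℂ} (hx : Transcendental ℚ x) (h : Sm (k 0) x y) :
    ∀ i, i ≤ J → Transcendental ℚ (it n x i) ∧ Transcendental ℚ (it n y i) ∧
      Sm (k i) (it n x i) (it n y i) := by
  have ne : ∀ {z a : ℂ}, Transcendental ℚ z → IsAlgebraic ℚ a → z ≠ a := by
    intro z a hz ha h0
    apply hz
    rw [h0]
    exact ha
  intro i
  induction i with
  | zero => exact fun _ => ⟨hx, tr_y hk hx h, h⟩
  | succ i ih =>
    intro hi
    obtain ⟨h1, h2, h3⟩ := ih (by omega)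
    have hi' : i < J := by omega
    have hn0 := hc.n0 i hi'
    have hni := ha i hi'
    rw [hc.k1 i hi'] at h3
    have n1 : ∀ {z : ℂ}, Transcendental ℚ z → n i * z ≠ 1 := by
      intro z hz h0
      refine ne hz hni.inv ?_
      rw [eq_inv_of_mul_eq_one_right h0]
    refine ⟨tr_gg hni hn0 h1, tr_gg hni hn0 h2, ?_⟩
    rw [hc.k2 i hi']
    exact Sm.step hn0 (ne h1 isAlgebraic_zero) (ne h2 isAlgebraic_zero) (ne h1 hni) (n1 h1)
      (ne h2 hni) (n1 h2) h3

end trans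

end Pool.Agent.Run7.h770.UB
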