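import Pool.Agent.Run7.h770.UB.Path
import Pool.Agent.Run7.h770.IJ.Loop
import Pool.Agent.W367.KT.RepL
set_option autoImplicit false

/-!
The regulator integrals of the pulled back symbols on a large circle.
-/

namespace Pool.Agent.Run7.h770.UB

open MeasureTheory Set intervalIntegral

open scoped Interval

open Pool.Agent.W367.KT

open Pool.Agent.Run7.h770.IJ (rt Off contDiff_rt)

set_option linter.unusedSectionVars false

/-- The integral of `log |G| d arg H - log |H| d arg G`. -/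
noncomputable def prK (G H : ℝ → ℂ) : ℝ :=
  ∫ t in (0 : ℝ)..1, (Real.log ‖G t‖ * (deriv H t / H t).im - Real.log ‖H t‖ * (deriv G t / G t).im)

theorem pr_estimate {G H : ℝ → ℂ} {R : ℝ} (hR : 0 < R) {c c' : ℂ} (hc : c ≠ 0)
    (hc' : c' ≠ 0) (m n : ℤ) {A0 A1 B0 : ℝ} (hG : Rep R G c m A0 A1) (hH : Rep' R H c' n B0) :
    |prK G H - 2 * Real.pi * (n * Real.log ‖c‖ - m * Real.log ‖c'‖)| ≤
      2 * Real.pi * |(m:ℝ)| * B0 + 2 * Real.pi * |(n:ℝ)| * A0 + B0 * A1 := by
  obtain ⟨α, hα, hα1, ha, hA0, hA1⟩ := hG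
  obtain ⟨β, hβ, hβ1, hb, hB0⟩ := hH
  have dα : ∀ t, HasDerivAt α (deriv α t) t := fun t => ((hα.differentiable (by norm_num)) t).hasDerivAt
  have dβ : ∀ t, HasDerivAt β (deriv β t) t := fun t => ((hβ.differentiable (by norm_num)) t).hasDerivAt
  have cα := hα.continuous
  have cβ := hβ.continuous
  have cα' := hα.continuous_deriv (by norm_num)
  have cβ' := hβ.continuous_deriv (by norm_num)
  have ga : ∀ t, G t ≠ 0 := fun t => by
    rw [ha t]
    exact mul_ne_zero (mul_ne_zero hc (zpow_ne_zero _ (circ_ne_zero hR t))) (Complex.exp_ne_zero _)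
  have gb : ∀ t, H t ≠ 0 := fun t => by
    rw [hb t]
    exact mul_ne_zero (mul_ne_zero hc' (zpow_ne_zero _ (circ_ne_zero hR t))) (Complex.exp_ne_zero _)
  -- logarithmic derivatives
  have la : ∀ t, deriv G t / G t = 2 * Real.pi * Complex.I * m + deriv α t := by
    intro t
    rw [(rep_hasDerivAt hR hα ha t).deriv, mul_div_assoc, div_self (ga t), mul_one]
  have lb : ∀ t, deriv H t / H t = 2 * Real.pi * Complex.I * n + deriv β t := by
    intro t
    rw [(rep_hasDerivAt hR hβ hb t).deriv, mul_div_assoc, div_self (gb t), mul_one]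
  have na : ∀ t, Real.log ‖G t‖ = Real.log ‖c‖ + m * Real.log R + (α t).re := by
    intro t
    rw [ha t, norm_mul, norm_mul, norm_zpow, norm_circ hR, Complex.norm_exp, Real.log_mul, Real.log_mul,
      Real.log_zpow, Real.log_exp]
    · exact norm_ne_zero_iff.2 hc
    · exact zpow_ne_zero _ hR.ne'
    · exact mul_ne_zero (norm_ne_zero_iff.2 hc) (zpow_ne_zero _ hR.ne')
    · exact (Real.exp_pos _).ne'
  have nb : ∀ t, Real.log ‖H t‖ = Real.log ‖c'‖ + n * Real.log R + (β t).re := by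
    intro t
    rw [hb t, norm_mul, norm_mul, norm_zpow, norm_circ hR, Complex.norm_exp, Real.log_mul, Real.log_mul,
      Real.log_zpow, Real.log_exp]
    · exact norm_ne_zero_iff.2 hc'
    · exact zpow_ne_zero _ hR.ne'
    · exact mul_ne_zero (norm_ne_zero_iff.2 hc') (zpow_ne_zero _ hR.ne')
    · exact (Real.exp_pos _).ne'
  set P := Real.log ‖c‖ + m * Real.log R with hP
  set Q := Real.log ‖c'‖ + n * Real.log R with hQ
  set rest : ℝ → ℝ := fun t => 2 * Real.pi * n * (α t).re - 2 * Real.pi * m * (β t).re - (β t * deriv α t).im with hrest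
  set G₁ : ℝ → ℝ := fun t => P * (β t).im - Q * (α t).im + (α t).re * (β t).im with hG
  set G' : ℝ → ℝ := fun t => P * (deriv β t).im - Q * (deriv α t).im +
    ((deriv α t).re * (β t).im + (α t).re * (deriv β t).im) with hG'
  have dG : ∀ t, HasDerivAt G₁ (G' t) t := by
    intro t
    exact (((hd_im (dβ t)).const_mul P).sub ((hd_im (dα t)).const_mul Q)).add
      ((hd_re (dα t)).mul (hd_im (dβ t)))
  have cG' : Continuous G' := by
    simp only [hG']
    fun_prop
  have cR : Continuous rest := by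
    simp only [hrest]
    fun_prop
  have him : ∀ k : ℤ, (2 * (Real.pi:ℂ) * Complex.I * k).im = 2 * Real.pi * k := by
    intro k
    simp
  have hform : ∀ t, Real.log ‖G t‖ * (deriv H t / H t).im - Real.log ‖H t‖ * (deriv G t / G t).im =
      2 * Real.pi * (n * Real.log ‖c‖ - m * Real.log ‖c'‖) + G' t + rest t := by
    intro t
    rw [la, lb, na, nb, Complex.add_im, Complex.add_im, him, him]
    simp only [hG', hrest, Complex.mul_im, hP, hQ]
    ring
  have hint : prK G H = 2 * Real.pi * (n * Real.log ‖c‖ - m * Real.log ‖c'‖) + (G₁ 1 - G₁ 0) + ∫ t in (0:ℝ)..1, rest t := by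
    unfold prK
    rw [intervalIntegral.integral_congr (g := fun t => 2 * Real.pi * (n * Real.log ‖c‖ - m * Real.log ‖c'‖) + G' t + rest t)
      (fun t _ => hform t)]
    set C := 2 * Real.pi * (n * Real.log ‖c‖ - m * Real.log ‖c'‖) with hC
    have e1 : ∫ t in (0:ℝ)..1, (C + G' t + rest t) = (∫ t in (0:ℝ)..1, (C + G' t)) + ∫ t in (0:ℝ)..1, rest t :=
      intervalIntegral.integral_add (f := fun t => C + G' t)
        ((continuous_const.add cG').intervalIntegrable _ _) (cR.intervalIntegrable _ _)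
    have e2 : ∫ t in (0:ℝ)..1, (C + G' t) = (∫ t in (0:ℝ)..1, C) + ∫ t in (0:ℝ)..1, G' t :=
      intervalIntegral.integral_add (f := fun _ => C)
        (continuous_const.intervalIntegrable _ _) (cG'.intervalIntegrable _ _)
    rw [e1, e2, intervalIntegral.integral_eq_sub_of_hasDerivAt (fun t _ => dG t) (cG'.intervalIntegrable _ _)]
    simp
  have hG01 : G₁ 1 - G₁ 0 = 0 := by
    simp only [hG]
    rw [hα1, hβ1]; ring
  rw [hint, hG01]
  have hsimp : 2 * Real.pi * (n * Real.log ‖c‖ - m * Real.log ‖c'‖) + 0 + (∫ t in (0:ℝ)..1, rest t) -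
      2 * Real.pi * (n * Real.log ‖c‖ - m * Real.log ‖c'‖) = ∫ t in (0:ℝ)..1, rest t := by ring
  rw [hsimp]
  have hA0' : 0 ≤ A0 := (norm_nonneg _).trans (hA0 0)
  have hbound : ∀ t ∈ Ι (0:ℝ) 1, ‖rest t‖ ≤ 2 * Real.pi * |(m:ℝ)| * B0 + 2 * Real.pi * |(n:ℝ)| * A0 + B0 * A1 := by
    intro t _
    simp only [hrest]
    have h1 : |2 * Real.pi * n * (α t).re| ≤ 2 * Real.pi * |(n:ℝ)| * A0 := by
      rw [abs_mul, abs_mul, abs_of_pos (by positivity : (0:ℝ) < 2 * Real.pi)]
      exact mul_le_mul_of_nonneg_left ((Complex.abs_re_le_norm _).trans (hA0 t)) (by positivity)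
    have h2 : |2 * Real.pi * m * (β t).re| ≤ 2 * Real.pi * |(m:ℝ)| * B0 := by
      rw [abs_mul, abs_mul, abs_of_pos (by positivity : (0:ℝ) < 2 * Real.pi)]
      exact mul_le_mul_of_nonneg_left ((Complex.abs_re_le_norm _).trans (hB0 t)) (by positivity)
    have h3 : |(β t * deriv α t).im| ≤ B0 * A1 := by
      refine (Complex.abs_im_le_norm _).trans ?_
      rw [norm_mul]
      exact mul_le_mul (hB0 t) (hA1 t) (norm_nonneg _) ((norm_nonneg _).trans (hB0 t))
    rw [Real.norm_eq_abs]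
    calc |2 * Real.pi * n * (α t).re - 2 * Real.pi * m * (β t).re - (β t * deriv α t).im|
        ≤ |2 * Real.pi * n * (α t).re| + |2 * Real.pi * m * (β t).re| + |(β t * deriv α t).im| := by
          exact (abs_sub _ _).trans (add_le_add_left (abs_sub _ _) _)
      _ ≤ _ := by linarith
  have := intervalIntegral.norm_integral_le_of_norm_le_const hbound
  simpa using this

theorem Rep.inv' {R : ℝ} {A : ℝ → ℂ} {c : ℂ} {m : ℤ} {A0 A1 : ℝ}
    (hA : Rep R A c m A0 A1) : Rep R (fun t => (A t)⁻¹) c⁻¹ (-m) A0 A1 := by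
  obtain ⟨α, h1, h2, h3, h4, h5⟩ := hA
  refine ⟨fun t => -α t, h1.neg, by dsimp only; rw [h2], fun t => ?_, fun t => ?_, fun t => ?_⟩
  · dsimp only; rw [h3, mul_inv, mul_inv, zpow_neg, Complex.exp_neg]
  · rw [norm_neg]; exact h4 t
  · have : deriv (fun t => -α t) t = -deriv α t := deriv.fun_neg
    rw [this, norm_neg]
    exact h5 t

theorem rep_congr {R : ℝ} {A B : ℝ → ℂ} {c d : ℂ} {m n : ℤ} {A0 B0 A1 B1 : ℝ}
    (h : Rep R A c m A0 A1) (hAB : ∀ t, A t = B t) (hcd : c = d) (hmn : m = n) (h0 : A0 ≤ B0)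
    (h1 : A1 ≤ B1) : Rep R B d n B0 B1 := by
  obtain ⟨α, k1, k2, k3, k4, k5⟩ := h
  subst hcd hmn
  exact ⟨α, k1, k2, fun t => (hAB t).symm.trans (k3 t), fun t => (k4 t).trans h0,
    fun t => (k5 t).trans h1⟩

/-- The integral along a path traversed `N` times. -/
theorem prK_mul {G H : ℝ → ℂ} (hG : PP G) (hH : PP H) (N : ℕ) :
    prK (fun t => G (N * t)) (fun t => H (N * t)) = N * prK G H := by
  set f : ℝ → ℝ := fun t => Real.log ‖G t‖ * (deriv H t / H t).im -
    Real.log ‖H t‖ * (deriv G t / G t).im with hf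
  have hd : ∀ {X : ℝ → ℂ}, PP X → ∀ t, deriv (fun t => X (N * t)) t = N * deriv X (N * t) := by
    intro X hX t
    have h1 : HasDerivAt X (deriv X (N * t)) (N * t) :=
      ((hX.smooth.differentiable (by norm_num)) _).hasDerivAt
    have h2 : HasDerivAt (fun t : ℝ => (N : ℝ) * t) N t := by
      simpa using (hasDerivAt_id t).const_mul (N : ℝ)
    have h3 : HasDerivAt (fun t : ℝ => X (N * t)) ((N : ℝ) • deriv X (N * t)) t := h1.scomp t h2
    rw [h3.deriv]
    simp
  have hper : ∀ {X : ℝ → ℂ}, PP X → ∀ t, deriv X (t + 1) = deriv X t := by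
    intro X hX t
    have h1 : HasDerivAt X (deriv X (t + 1)) (t + 1) :=
      ((hX.smooth.differentiable (by norm_num)) _).hasDerivAt
    have h2 : (fun s => X (s + 1)) = X := funext hX.per
    have h3 := (h1.comp_add_const t 1).deriv
    rw [h2] at h3
    exact h3.symm
  have hfp : Function.Periodic f 1 := by
    intro t
    rw [hf]
    simp only [hG.per, hH.per, hper hG, hper hH]
  have hcl : ∀ {X : ℝ → ℂ}, PP X → Continuous fun t => Real.log ‖X t‖ := fun hX =>
    Continuous.log hX.smooth.continuous.norm fun t => norm_ne_zero_iff.2 (hX.ne t)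
  have hcd : ∀ {X : ℝ → ℂ}, PP X → Continuous fun t => (deriv X t / X t).im := fun hX =>
    Complex.continuous_im.comp
      ((hX.smooth.continuous_deriv (by norm_num)).div hX.smooth.continuous hX.ne)
  have hfc : Continuous f := ((hcl hG).mul (hcd hH)).sub ((hcl hH).mul (hcd hG))
  have h1 : prK (fun t => G (N * t)) (fun t => H (N * t)) =
      ∫ t in (0 : ℝ)..1, (N : ℝ) • f (N * t) := by
    unfold prK
    refine intervalIntegral.integral_congr fun t _ => ?_
    simp only [hd hG, hd hH, hf, smul_eq_mul]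
    have e : ∀ z w : ℂ, ((N : ℂ) * z / w).im = N * (z / w).im := by
      intro z w
      rw [mul_div_assoc]
      simp
    rw [e, e]
    ring
  rw [h1, intervalIntegral.integral_smul, intervalIntegral.smul_integral_comp_mul_left]
  have h2 := hfp.intervalIntegral_add_zsmul_eq (N : ℤ) 0
    (fun a b => hfc.intervalIntegrable a b)
  simp only [zsmul_eq_mul, Int.cast_natCast, mul_one, zero_add] at h2
  rw [mul_zero, mul_one, h2]
  rfl

theorem off_of_lt {w : ℂ} (hw : 2 < ‖w‖) : Off w := by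
  intro a ha h
  rw [h, Complex.norm_real, Real.norm_eq_abs] at hw
  exact absurd hw (not_lt.2 ha)

section top

variable {n : ℂ} (hn : 100 ≤ ‖n‖) {R : ℝ} (hR1 : 1 < R) (hR2 : R < 2)

/-- the function `k - x - 1/x` on the circle -/
noncomputable def ph (n : ℂ) (R t : ℝ) : ℂ := 2 * (n + n⁻¹) - (circ R t + (circ R t)⁻¹)

include hn hR1 hR2

theorem n_ne : n ≠ 0 := by
  rw [← norm_pos_iff]
  linarith

theorem norm_inv_n : ‖n⁻¹‖ ≤ 1 / 100 := by
  rw [norm_inv, one_div]
  exact inv_anti₀ (by norm_num) hn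

theorem ph_near (t : ℝ) : ‖ph n R t - 2 * n‖ ≤ 4 := by
  have e : ph n R t - 2 * n = 2 * n⁻¹ - (circ R t + (circ R t)⁻¹) := by
    unfold ph
    ring
  rw [e]
  have h1 := norm_inv_n hn hR1 hR2
  have h2 : ‖circ R t + (circ R t)⁻¹‖ ≤ 3 := by
    refine (norm_add_le _ _).trans ?_
    rw [norm_inv, norm_circ (by linarith)]
    have : R⁻¹ ≤ 1 := inv_le_one_of_one_le₀ hR1.le
    linarith
  have h3 : ‖2 * n⁻¹‖ ≤ 2 * (1 / 100) := by
    rw [norm_mul, Complex.norm_ofNat]
    linarith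
  refine (norm_sub_le _ _).trans ?_
  linarith

theorem ph_big (t : ℝ) : 2 < ‖ph n R t‖ := by
  have h1 := ph_near hn hR1 hR2 t
  have h2 := norm_sub_norm_le (2 * n) (2 * n - ph n R t)
  rw [norm_sub_rev (2 * n), norm_mul, Complex.norm_ofNat, sub_sub_cancel] at h2
  linarith

/-- the large root `y` -/
noncomputable def yt (n : ℂ) (R t : ℝ) : ℂ := rt (ph n R t)

theorem yt_eq (t : ℝ) : yt n R t + (yt n R t)⁻¹ = ph n R t :=
  (off_of_lt (ph_big hn hR1 hR2 t)).rt_eq

theorem yt_gt (t : ℝ) : 1 < ‖yt n R t‖ := (off_of_lt (ph_big hn hR1 hR2 t)).one_lt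

theorem circ_per (t : ℝ) : circ R (t + 1) = circ R t :=
  Pool.Agent.TH826.MK.circ_add_one R t

theorem pp_circ : PP (circ R) :=
  ⟨contDiff_circ R, fun t => circ_per hn hR1 hR2 t, fun t => circ_ne_zero (by linarith) t⟩

theorem pp_yt : PP (yt n R) := by
  refine ⟨?_, fun t => ?_, fun t => ?_⟩
  · refine contDiff_rt ?_ fun t => off_of_lt (ph_big hn hR1 hR2 t)
    unfold ph
    exact contDiff_const.sub ((contDiff_circ R).add
      ((contDiff_circ R).inv fun t => circ_ne_zero (by linarith) t))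
  · unfold yt ph
    rw [circ_per hn hR1 hR2]
  · exact (off_of_lt (ph_big hn hR1 hR2 t)).rt_ne

theorem sm_yt (t : ℝ) : Sm (2 * (n + n⁻¹)) (circ R t) (yt n R t) := by
  unfold Sm
  rw [add_assoc, yt_eq hn hR1 hR2 t]
  unfold ph
  ring

/-- `y = 2 n (1 + δ)` -/
noncomputable def dl (n : ℂ) (R t : ℝ) : ℂ := yt n R t / (2 * n) - 1

theorem yt_dl (t : ℝ) : yt n R t = 2 * n * (1 + dl n R t) := by
  unfold dl
  have := n_ne hn hR1 hR2
  field_simp
  ring

theorem norm_dl (t : ℝ) : ‖dl n R t‖ ≤ 1 / 40 := by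
  have h0 := n_ne hn hR1 hR2
  have e : dl n R t = (yt n R t - 2 * n) / (2 * n) := by
    unfold dl
    field_simp
  rw [e, norm_div, norm_mul, Complex.norm_ofNat, div_le_iff₀ (by linarith)]
  have h1 := yt_eq hn hR1 hR2 t
  have h2 : yt n R t - 2 * n = (ph n R t - 2 * n) - (yt n R t)⁻¹ := by rw [← h1]; ring
  have h3 : ‖(yt n R t)⁻¹‖ ≤ 1 := by
    rw [norm_inv]
    exact inv_le_one_of_one_le₀ (yt_gt hn hR1 hR2 t).le
  have h4 := ph_near hn hR1 hR2 t
  rw [h2]
  have h5 := norm_sub_le (ph n R t - 2 * n) (yt n R t)⁻¹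
  linarith

/-- the small quantity `1 / (n y)` -/
noncomputable def ep (n : ℂ) (R t : ℝ) : ℂ := (n * yt n R t)⁻¹

theorem norm_ep (t : ℝ) : ‖ep n R t‖ ≤ 1 / 100 := by
  unfold ep
  rw [mul_inv, norm_mul]
  have h1 := norm_inv_n hn hR1 hR2
  have h3 : ‖(yt n R t)⁻¹‖ ≤ 1 := by
    rw [norm_inv]
    exact inv_le_one_of_one_le₀ (yt_gt hn hR1 hR2 t).le
  calc ‖n⁻¹‖ * ‖(yt n R t)⁻¹‖ ≤ 1 / 100 * 1 := mul_le_mul h1 h3 (norm_nonneg _) (by norm_num)
    _ = 1 / 100 := by norm_num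

theorem one_sub_ep (t : ℝ) : 99 / 100 ≤ ‖1 - ep n R t‖ := by
  have h1 := norm_sub_norm_le (1 : ℂ) (ep n R t)
  rw [norm_one] at h1
  linarith [norm_ep hn hR1 hR2 t]

theorem one_add_dl (t : ℝ) : 19 / 20 ≤ ‖1 + 2 * dl n R t‖ := by
  have h1 := norm_sub_norm_le (1 : ℂ) (-(2 * dl n R t))
  rw [norm_one, norm_neg, norm_mul, Complex.norm_ofNat, sub_neg_eq_add] at h1
  linarith [norm_dl hn hR1 hR2 t]

theorem gm_eq (t : ℝ) : gg n⁻¹ (yt n R t) = (1 + 2 * dl n R t) / (1 - ep n R t) := by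
  have h0 := n_ne hn hR1 hR2
  have hy := (pp_yt hn hR1 hR2).ne t
  have h1 : 1 - ep n R t ≠ 0 := by
    rw [← norm_pos_iff]
    linarith [one_sub_ep hn hR1 hR2 t]
  have h2 : yt n R t - n⁻¹ = yt n R t * (1 - ep n R t) := by
    unfold ep
    field_simp
  have h3 : n⁻¹ * yt n R t - 1 = 1 + 2 * dl n R t := by
    unfold dl
    field_simp
    ring
  unfold gg
  rw [h2, h3]
  field_simp

theorem gp_eq (t : ℝ) : gg n (yt n R t) =
    4 * n ^ 2 * ((1 + dl n R t) ^ 2 * (1 - ep n R t) / (1 + 2 * dl n R t)) := by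
  have h0 := n_ne hn hR1 hR2
  have hy := (pp_yt hn hR1 hR2).ne t
  have h1 : 1 + 2 * dl n R t ≠ 0 := by
    rw [← norm_pos_iff]
    linarith [one_add_dl hn hR1 hR2 t]
  have h2 : n * yt n R t - 1 = n * yt n R t * (1 - ep n R t) := by
    unfold ep
    field_simp
  have h3 : yt n R t - n = n * (1 + 2 * dl n R t) := by
    unfold dl
    field_simp
    ring
  unfold gg
  rw [h2, h3]
  generalize ep n R t = e
  rw [yt_dl hn hR1 hR2 t]
  field_simp
  ring

theorem gm_near (t : ℝ) : ‖gg n⁻¹ (yt n R t) - 1‖ ≤ 1 / 4 := by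
  have h1 := one_sub_ep hn hR1 hR2 t
  have h2 : 1 - ep n R t ≠ 0 := by
    rw [← norm_pos_iff]
    linarith
  have e : gg n⁻¹ (yt n R t) - 1 = (2 * dl n R t + ep n R t) / (1 - ep n R t) := by
    rw [gm_eq hn hR1 hR2]
    field_simp
    ring
  rw [e, norm_div, div_le_iff₀ (by linarith)]
  have h3 := norm_add_le (2 * dl n R t) (ep n R t)
  rw [norm_mul, Complex.norm_ofNat] at h3
  linarith [norm_dl hn hR1 hR2 t, norm_ep hn hR1 hR2 t]

theorem gp_near (t : ℝ) :
    ‖(1 + dl n R t) ^ 2 * (1 - ep n R t) / (1 + 2 * dl n R t) - 1‖ ≤ 1 / 4 := by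
  have h1 := one_add_dl hn hR1 hR2 t
  have h2 : 1 + 2 * dl n R t ≠ 0 := by
    rw [← norm_pos_iff]
    linarith
  have e : (1 + dl n R t) ^ 2 * (1 - ep n R t) / (1 + 2 * dl n R t) - 1 =
      (dl n R t ^ 2 - (1 + dl n R t) ^ 2 * ep n R t) / (1 + 2 * dl n R t) := by
    rw [div_sub_one h2]
    congr 1
    ring
  have h3 := norm_dl hn hR1 hR2 t
  have h4 := norm_ep hn hR1 hR2 t
  rw [e, norm_div, div_le_iff₀ (by linarith)]
  have h5 := norm_sub_le (dl n R t ^ 2) ((1 + dl n R t) ^ 2 * ep n R t)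
  rw [norm_pow, norm_mul, norm_pow] at h5
  have h6 : ‖1 + dl n R t‖ ≤ 2 := (norm_add_le _ _).trans (by rw [norm_one]; linarith)
  have h7 : ‖dl n R t‖ ^ 2 ≤ (1 / 40) ^ 2 := pow_le_pow_left₀ (norm_nonneg _) h3 2
  have h8 : ‖1 + dl n R t‖ ^ 2 * ‖ep n R t‖ ≤ 2 ^ 2 * (1 / 100) :=
    mul_le_mul (pow_le_pow_left₀ (norm_nonneg _) h6 2) h4 (norm_nonneg _) (by norm_num)
  linarith

theorem ne_mul_circ (t : ℝ) : ‖n⁻¹ * circ R t ^ (1 : ℤ)‖ ≤ 1 / 2 ∧
    ‖n⁻¹ * circ R t ^ (-1 : ℤ)‖ ≤ 1 / 2 := by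
  have h1 := norm_inv_n hn hR1 hR2
  have h2 : ‖circ R t‖ = R := norm_circ (by linarith) t
  constructor
  · rw [norm_mul, zpow_one, h2]
    calc ‖n⁻¹‖ * R ≤ 1 / 100 * 2 := mul_le_mul h1 hR2.le (by linarith) (by norm_num)
      _ ≤ 1 / 2 := by norm_num
  · rw [norm_mul, zpow_neg_one, norm_inv (circ R t), h2]
    have : R⁻¹ ≤ 1 := inv_le_one_of_one_le₀ hR1.le
    calc ‖n⁻¹‖ * R⁻¹ ≤ 1 / 100 * 1 := mul_le_mul h1 this (by positivity) (by norm_num)
      _ ≤ 1 / 2 := by norm_num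

theorem rep_xm : Rep R (fun t => gg n⁻¹ (circ R t)) (-1) 0 2 (4 * Real.pi) := by
  have hR : 0 < R := by linarith
  have a1 := Rep.one_sub hR n⁻¹ 1 (by norm_num) fun t => (ne_mul_circ hn hR1 hR2 t).1
  have a2 := Rep.one_sub hR n⁻¹ (-1) (by norm_num) fun t => (ne_mul_circ hn hR1 hR2 t).2
  have h := ((Rep.const R (-1)).mul hR a1).mul hR (Rep.inv' a2)
  refine rep_congr h (fun t => ?_) (by norm_num) (by norm_num) (by norm_num)
    (by linarith [Real.pi_pos])
  have hx := circ_ne_zero hR t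
  have h0 := n_ne hn hR1 hR2
  have h3 : 1 - n⁻¹ * circ R t ^ (-1 : ℤ) ≠ 0 := by
    intro h4
    have h5 := (ne_mul_circ hn hR1 hR2 t).2
    rw [← sub_eq_zero.1 h4, norm_one] at h5
    norm_num at h5
  rw [zpow_neg_one] at h3
  have h4 : circ R t - n⁻¹ = circ R t * (1 - n⁻¹ * (circ R t)⁻¹) := by
    field_simp
  unfold gg
  rw [zpow_one, zpow_neg_one, h4]
  generalize (1 - n⁻¹ * (circ R t)⁻¹) = e at *
  field_simp
  ring

theorem rep_xp : Rep R (fun t => gg n (circ R t)) (-1) 2 2 (4 * Real.pi) := by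
  have hR : 0 < R := by linarith
  have a1 := Rep.one_sub hR n⁻¹ 1 (by norm_num) fun t => (ne_mul_circ hn hR1 hR2 t).1
  have a2 := Rep.one_sub hR n⁻¹ (-1) (by norm_num) fun t => (ne_mul_circ hn hR1 hR2 t).2
  have h := ((((Rep.const R (-1)).mul hR (Rep.x R)).mul hR (Rep.x R)).mul hR a2).mul hR
    (Rep.inv' a1)
  refine rep_congr h (fun t => ?_) (by norm_num) (by norm_num) (by norm_num)
    (by linarith [Real.pi_pos])
  have hx := circ_ne_zero hR t
  have h0 := n_ne hn hR1 hR2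
  have h3 : 1 - n⁻¹ * circ R t ^ (1 : ℤ) ≠ 0 := by
    intro h4
    have h5 := (ne_mul_circ hn hR1 hR2 t).1
    rw [← sub_eq_zero.1 h4, norm_one] at h5
    norm_num at h5
  rw [zpow_one] at h3
  have h4 : circ R t - n = -n * (1 - n⁻¹ * circ R t) := by
    field_simp
    ring
  have h5 : n * circ R t - 1 = n * circ R t * (1 - n⁻¹ * (circ R t)⁻¹) := by
    field_simp
  unfold gg
  rw [zpow_one, zpow_neg_one, h4, h5]
  generalize (1 - n⁻¹ * (circ R t)⁻¹) = e at *
  generalize (1 - n⁻¹ * circ R t) = e' at *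
  field_simp

theorem cont_gm : ContDiff ℝ 1 (fun t => gg n⁻¹ (yt n R t)) := by
  have h1 := (pp_yt hn hR1 hR2).smooth.of_le (show (1 : WithTop ℕ∞) ≤ 2 by norm_num)
  have hne : ∀ t, yt n R t - n⁻¹ ≠ 0 := by
    intro t h
    have h2 := yt_gt hn hR1 hR2 t
    rw [sub_eq_zero.1 h] at h2
    linarith [norm_inv_n hn hR1 hR2]
  unfold gg
  simp only [div_eq_mul_inv]
  exact (h1.mul ((contDiff_const.mul h1).sub contDiff_const)).mul
    ((h1.sub contDiff_const).inv hne)

theorem cont_gp : ContDiff ℝ 1 (fun t => gg n (yt n R t)) := by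
  have h1 := (pp_yt hn hR1 hR2).smooth.of_le (show (1 : WithTop ℕ∞) ≤ 2 by norm_num)
  have hne : ∀ t, yt n R t - n ≠ 0 := by
    intro t h
    have h3 : yt n R t - n = n * (1 + 2 * dl n R t) := by
      have h0 := n_ne hn hR1 hR2
      unfold dl
      field_simp
      ring
    rw [h3] at h
    have h4 := one_add_dl hn hR1 hR2 t
    rcases mul_eq_zero.1 h with h5 | h5
    · exact n_ne hn hR1 hR2 h5
    · rw [h5, norm_zero] at h4
      norm_num at h4
  unfold gg
  simp only [div_eq_mul_inv]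
  exact (h1.mul ((contDiff_const.mul h1).sub contDiff_const)).mul
    ((h1.sub contDiff_const).inv hne)

theorem rep_ym : Rep' R (fun t => gg n⁻¹ (yt n R t)) 1 0 (3 / 2 * (1 / 4)) := by
  refine Rep'.near_one (cont_gm hn hR1 hR2) ?_ (by norm_num) (gm_near hn hR1 hR2)
  have := (pp_yt hn hR1 hR2).per 0
  rw [zero_add] at this
  simp only [this]

theorem rep_yp : Rep' R (fun t => gg n (yt n R t)) (4 * n ^ 2) 0 (3 / 2 * (1 / 4)) := by
  have h0 := n_ne hn hR1 hR2
  have hc : ContDiff ℝ 1 fun t => (4 * n ^ 2)⁻¹ * gg n (yt n R t) :=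
    contDiff_const.mul (cont_gp hn hR1 hR2)
  have h1 : Rep' R (fun t => (4 * n ^ 2)⁻¹ * gg n (yt n R t)) 1 0 (3 / 2 * (1 / 4)) := by
    refine Rep'.near_one hc ?_ (by norm_num) fun t => ?_
    · have := (pp_yt hn hR1 hR2).per 0
      rw [zero_add] at this
      simp only [this]
    · have h2 := gp_near hn hR1 hR2 t
      rw [gp_eq hn hR1 hR2]
      rw [inv_mul_cancel_left₀ (mul_ne_zero (by norm_num) (pow_ne_zero 2 h0))]
      exact h2
  obtain ⟨α, b1, b2, b3, b4⟩ := h1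
  refine ⟨α, b1, b2, fun t => ?_, b4⟩
  have h2 := b3 t
  dsimp only at h2
  have h3 : gg n (yt n R t) = 4 * n ^ 2 * ((4 * n ^ 2)⁻¹ * gg n (yt n R t)) := by
    rw [mul_inv_cancel_left₀ (mul_ne_zero (by norm_num) (pow_ne_zero 2 h0))]
  show gg n (yt n R t) = _
  rw [h3, h2]
  ring

/-- The two regulator integrals are different. -/
theorem top_ne : prK (fun t => gg n (circ R t)) (fun t => gg n (yt n R t)) ≠
    prK (fun t => gg n⁻¹ (circ R t)) (fun t => gg n⁻¹ (yt n R t)) := by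
  have hR : 0 < R := by linarith
  have h0 := n_ne hn hR1 hR2
  have e1 := pr_estimate hR (by norm_num) one_ne_zero 0 0 (rep_xm hn hR1 hR2) (rep_ym hn hR1 hR2)
  have e2 := pr_estimate hR (by norm_num) (mul_ne_zero (by norm_num) (pow_ne_zero 2 h0)) 2 0
    (rep_xp hn hR1 hR2) (rep_yp hn hR1 hR2)
  have hlog : 2 ≤ Real.log ‖4 * n ^ 2‖ := by
    rw [Real.le_log_iff_exp_le (norm_pos_iff.2 (mul_ne_zero (by norm_num) (pow_ne_zero 2 h0)))]
    rw [norm_mul, norm_pow, Complex.norm_ofNat]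
    have h1 : (100 : ℝ) ^ 2 ≤ ‖n‖ ^ 2 := pow_le_pow_left₀ (by norm_num) hn 2
    have h2 : Real.exp 2 ≤ 9 := by
      have h3 : Real.exp 2 = Real.exp 1 ^ 2 := by
        rw [← Real.exp_nat_mul]
        norm_num
      rw [h3]
      have h4 := Real.exp_one_lt_d9
      have h5 := Real.exp_pos 1
      nlinarith
    linarith
  have hpi := Real.pi_pos
  simp only [norm_neg, norm_one, Real.log_one, mul_zero, Int.cast_zero, zero_mul, sub_zero,
    abs_zero, zero_add, Int.cast_ofNat, zero_sub] at e1 e2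
  rw [abs_le] at e1 e2
  rw [abs_of_pos (by norm_num : (0 : ℝ) < 2)] at e2
  intro h
  rw [h] at e2
  nlinarith [e1.1, e1.2, e2.1, e2.2, mul_le_mul_of_nonneg_left hlog hpi.le]

end top

end Pool.Agent.Run7.h770.UB
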