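import Pool.Agent.Run7.h770.UB.Basic
set_option autoImplicit false

/-!
Lifting closed paths through the isogenies.
-/

namespace Pool.Agent.Run7.h770.UB

open MeasureTheory Set

/-- smooth periodic functions without zeros -/
structure PP (X : ℝ → ℂ) : Prop where
  smooth : ContDiff ℝ 2 X
  per : ∀ t, X (t + 1) = X t
  ne : ∀ t, X t ≠ 0

theorem PP.mul {X Y : ℝ → ℂ} (hX : PP X) (hY : PP Y) : PP fun t => X t * Y t :=
  ⟨hX.smooth.mul hY.smooth, fun t => by simp only [hX.per, hY.per],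
    fun t => mul_ne_zero (hX.ne t) (hY.ne t)⟩

theorem PP.inv {X : ℝ → ℂ} (hX : PP X) : PP fun t => (X t)⁻¹ :=
  ⟨hX.smooth.inv hX.ne, fun t => by simp only [hX.per], fun t => inv_ne_zero (hX.ne t)⟩

theorem PP.neg {X : ℝ → ℂ} (hX : PP X) : PP fun t => -X t :=
  ⟨hX.smooth.neg, fun t => by simp only [hX.per], fun t => neg_ne_zero.2 (hX.ne t)⟩

/-- A square root of a smooth periodic function without zeros. -/
theorem exists_sqrt {f : ℝ → ℂ} (hf : PP f) : ∃ w : ℝ → ℂ, ContDiff ℝ 2 w ∧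
    (∀ t, w t ^ 2 = f t) ∧ ∃ ε : ℂ, ε ^ 2 = 1 ∧ ∀ t, w (t + 1) = ε * w t := by
  set q : ℝ → ℂ := fun t => deriv f t / f t with hq
  have hd : ∀ t, HasDerivAt f (deriv f t) t := fun t =>
    ((hf.smooth.differentiable (by norm_num)) t).hasDerivAt
  have hd1 : ContDiff ℝ 1 (deriv f) := by
    have h1 : ContDiff ℝ (1 + 1) f := by
      have := hf.smooth
      norm_num
      exact this
    exact (contDiff_succ_iff_deriv.1 h1).2.2
  have hq1 : ContDiff ℝ 1 q := by
    rw [hq]
    simp only [div_eq_mul_inv]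
    exact hd1.mul ((hf.smooth.of_le (by norm_num)).inv hf.ne)
  have hqc : Continuous q := hq1.continuous
  set h : ℝ → ℂ := fun t => ∫ s in (0 : ℝ)..t, q s with hh
  have hh' : ∀ t, HasDerivAt h (q t) t := fun t =>
    intervalIntegral.integral_hasDerivAt_right (hqc.intervalIntegrable _ _)
      (hqc.stronglyMeasurableAtFilter _ _) hqc.continuousAt
  have hderiv : deriv h = q := funext fun t => (hh' t).deriv
  have hh2 : ContDiff ℝ 2 h := by
    have h1 : ContDiff ℝ (1 + 1) h := by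
      refine contDiff_succ_iff_deriv.2 ⟨fun t => (hh' t).differentiableAt, by simp, ?_⟩
      rw [hderiv]
      exact hq1
    norm_num at h1
    exact h1
  have h0 : h 0 = 0 := by
    rw [hh]
    simp
  have hfh : ∀ t, f t = f 0 * Complex.exp (h t) := by
    intro t
    have key : ∀ t, HasDerivAt (fun t => f t * Complex.exp (-h t)) 0 t := by
      intro t
      have h1 := (hd t).mul (hh' t).neg.cexp
      refine h1.congr_deriv ?_
      rw [hq]
      have := hf.ne t
      field_simp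
      ring
    have h1 : (fun t => f t * Complex.exp (-h t)) t = (fun t => f t * Complex.exp (-h t)) 0 :=
      is_const_of_deriv_eq_zero (fun t => (key t).differentiableAt) (fun t => (key t).deriv) t 0
    simp only [h0, neg_zero, Complex.exp_zero, mul_one] at h1
    rw [← h1, mul_assoc, ← Complex.exp_add]
    simp
  have hqp : ∀ t, q (t + 1) = q t := by
    intro t
    have h1 : deriv f (t + 1) = deriv f t := by
      have h2 : (fun s => f (s + 1)) = f := funext hf.per
      have h3 := ((hd (t + 1)).comp_add_const t 1).deriv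
      rw [h2] at h3
      exact h3.symm
    rw [hq]
    simp only [h1, hf.per]
  have hadd : ∀ t, h (t + 1) = h t + h 1 := by
    intro t
    have key : ∀ t, HasDerivAt (fun t => h (t + 1) - h t) 0 t := by
      intro t
      have h1 := ((hh' (t + 1)).comp_add_const t 1).sub (hh' t)
      refine h1.congr_deriv ?_
      rw [hqp, sub_self]
    have h1 : (fun t => h (t + 1) - h t) t = (fun t => h (t + 1) - h t) 0 :=
      is_const_of_deriv_eq_zero (fun t => (key t).differentiableAt) (fun t => (key t).deriv) t 0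
    simp only [zero_add, h0, sub_zero] at h1
    linear_combination h1
  refine ⟨fun t => Complex.exp (Complex.log (f 0) / 2) * Complex.exp (h t / 2), ?_, ?_,
    Complex.exp (h 1 / 2), ?_, ?_⟩
  · exact contDiff_const.mul (hh2.div_const 2).cexp
  · intro t
    show (Complex.exp (Complex.log (f 0) / 2) * Complex.exp (h t / 2)) ^ 2 = f t
    rw [mul_pow, ← Complex.exp_nat_mul, ← Complex.exp_nat_mul,
      show ((2 : ℕ) : ℂ) * (Complex.log (f 0) / 2) = Complex.log (f 0) by push_cast; ring,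
      show ((2 : ℕ) : ℂ) * (h t / 2) = h t by push_cast; ring, Complex.exp_log (hf.ne 0)]
    exact (hfh t).symm
  · rw [← Complex.exp_nat_mul, show ((2 : ℕ) : ℂ) * (h 1 / 2) = h 1 by push_cast; ring]
    have h1 := hfh 1
    have h2 : f 1 = f 0 := by
      have := hf.per 0
      rwa [zero_add] at this
    rw [h2] at h1
    have h3 : f 0 * Complex.exp (h 1) = f 0 * 1 := by rw [← h1, mul_one]
    exact mul_left_cancel₀ (hf.ne 0) h3
  · intro t
    show Complex.exp (Complex.log (f 0) / 2) * Complex.exp (h (t + 1) / 2) = _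
    rw [hadd, add_div, Complex.exp_add]
    ring

theorem PP.comp_mul {X : ℝ → ℂ} (hX : PP X) (N : ℕ) : PP fun t => X (N * t) := by
  refine ⟨hX.smooth.comp (contDiff_const.mul contDiff_id), fun t => ?_, fun t => hX.ne _⟩
  have key : ∀ (m : ℕ) (s : ℝ), X (s + m) = X s := by
    intro m
    induction m with
    | zero => intro s; simp
    | succ m ih =>
      intro s
      rw [Nat.cast_add, Nat.cast_one, ← add_assoc, hX.per, ih]
  show X (N * (t + 1)) = X (N * t)
  rw [mul_add, mul_one, key]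

/-- Lifting a closed path through one isogeny. -/
theorem lift_path {n : ℂ} (hn : n ≠ 0) (hn2 : n ^ 2 ≠ 1) {X' Y' : ℝ → ℂ} (hX : PP X')
    (hY : PP Y') (h : ∀ t, Sm (4 * n ^ 2) (X' t) (Y' t)) :
    ∃ X Y : ℝ → ℂ, PP X ∧ PP Y ∧ (∀ t, Sm (2 * (n + n⁻¹)) (X t) (Y t)) ∧
      (∀ t, gg n (X t) = X' (2 * t)) ∧ ∀ t, gg n (Y t) = Y' (2 * t) := by
  obtain ⟨w, w1, w2, ε, hε, w3⟩ := exists_sqrt (hX.neg.mul hY.inv)
  have h2 : (2 : ℂ) ≠ 0 := two_ne_zero
  have hw : ∀ t, w t ^ 2 * Y' t = -X' t := by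
    intro t
    rw [w2, mul_assoc, inv_mul_cancel₀ (hY.ne t), mul_one]
  have hw0 : ∀ t, w t ≠ 0 := by
    intro t h0
    have h1 := hw t
    rw [h0] at h1
    apply hX.ne t
    rw [← neg_eq_zero, ← h1]
    ring
  have hw' : ∀ t, (w t)⁻¹ ^ 2 * X' t = -Y' t := by
    intro t
    have h1 : X' t = -(w t ^ 2 * Y' t) := by rw [hw, neg_neg]
    have h3 := hw0 t
    rw [h1, inv_pow]
    field_simp
  have hwp : ∀ t, w (2 * (t + 1)) = w (2 * t) := by
    intro t
    have e : 2 * (t + 1) = (2 * t + 1) + 1 := by ring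
    rw [e, w3, w3, ← mul_assoc, ← pow_two, hε, one_mul]
  have hX2 : PP fun t => X' (2 * t) := by simpa using hX.comp_mul 2
  have hY2 : PP fun t => Y' (2 * t) := by simpa using hY.comp_mul 2
  have hw2 : ContDiff ℝ 2 fun t => w (2 * t) := w1.comp (contDiff_const.mul contDiff_id)
  refine ⟨fun t => lf n (X' (2 * t)) (Y' (2 * t)) (w (2 * t)),
    fun t => lf n (Y' (2 * t)) (X' (2 * t)) (w (2 * t))⁻¹, ⟨?_, ?_, ?_⟩, ⟨?_, ?_, ?_⟩, ?_, ?_, ?_⟩
  · unfold lf
    exact ((contDiff_const.add hX2.smooth).add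
      (hw2.mul (hY2.smooth.sub contDiff_const))).div_const _
  · intro t
    show lf n (X' (2 * (t + 1))) (Y' (2 * (t + 1))) (w (2 * (t + 1))) = _
    rw [hwp, hX2.per t, hY2.per t]
  · intro t
    exact lf_ne h2 hn (hX.ne _) (hY.ne _) (hw _) (h _)
  · unfold lf
    exact ((contDiff_const.add hY2.smooth).add
      ((hw2.inv fun t => hw0 _).mul (hX2.smooth.sub contDiff_const))).div_const _
  · intro t
    show lf n (Y' (2 * (t + 1))) (X' (2 * (t + 1))) (w (2 * (t + 1)))⁻¹ = _
    rw [hwp, hX2.per t, hY2.per t]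
  · intro t
    exact lf_ne h2 hn (hY.ne _) (hX.ne _) (hw' _) (h _).symm
  · intro t
    exact sm_lf h2 hn (hX.ne _) (hY.ne _) (hw _) (h _)
  · intro t
    exact gg_lf h2 hn (hX.ne _) (hY.ne _) (hw _) (h _) hn2
  · intro t
    exact gg_lf h2 hn (hY.ne _) (hX.ne _) (hw' _) (h _).symm hn2

/-- Lifting a closed path through a chain of isogenies. -/
theorem lift_all {k n : ℕ → ℂ} (J : ℕ) (hc : Chain k n J) {X' Y' : ℝ → ℂ} (hX : PP X')
    (hY : PP Y') (h : ∀ t, Sm (k J) (X' t) (Y' t)) :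
    ∃ X Y : ℝ → ℂ, PP X ∧ PP Y ∧ (∀ t, Sm (k 0) (X t) (Y t)) ∧
      (∀ t, it n (X t) J = X' (2 ^ J * t)) ∧ ∀ t, it n (Y t) J = Y' (2 ^ J * t) := by
  induction J generalizing X' Y' with
  | zero =>
    exact ⟨X', Y', hX, hY, h, fun t => by simp [it], fun t => by simp [it]⟩
  | succ J ih =>
    have hJ : J < J + 1 := by omega
    rw [hc.k2 J hJ] at h
    obtain ⟨X, Y, h1, h2, h3, h4, h5⟩ := lift_path (hc.n0 J hJ) (hc.n2 J hJ) hX hY h
    rw [← hc.k1 J hJ] at h3
    obtain ⟨X₀, Y₀, g1, g2, g3, g4, g5⟩ := ih (hc.mono (by omega)) h1 h2 h3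
    refine ⟨X₀, Y₀, g1, g2, g3, fun t => ?_, fun t => ?_⟩
    · show gg (n J) (it n (X₀ t) J) = _
      rw [g4, h4]
      congr 1
      ring
    · show gg (n J) (it n (Y₀ t) J) = _
      rw [g5, h5]
      congr 1
      ring

end Pool.Agent.Run7.h770.UB
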